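import Pool.Agent.Helper36.AM.St
import Pool.Agent.Helper38.NSL.Ni

/-! AUXILIARY SYSTEMS. `Sub s p s'`: the system `s'` on the extension `p` of the space of `s` has the same point; for every
type `i` of `s` there is a type `j` of `s'` with a finer information `Z`, independent of the space of `s` given the window 0
of the type `i`, such that the windows `b` of the type `j` are known to `Z` and to the window `b` of the type `i`, for all
levels `b`. Labels of the windows of `s'` are labels of the windows of `s`. -/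

set_option autoImplicit false

namespace Pool.Agent.Helper80.SUB

open Finset Filter Topology Pool.Agent.Helper69.RK Pool.Agent.Helper31.EC Pool.Agent.Helper31.EC.Sp
open Pool.Agent.Helper40.EL Pool.Agent.Helper3.LF Pool.Agent.Helper84.MT Pool.Agent.Helper36.AM
open Pool.Agent.Helper38.NSL

noncomputable section

variable {R S T : Sp} {M : ℕ} {E E' E'' : ℕ → ℕ} {ι κ κ' : Type}

/-- everything of the space below the extension -/
def ptop (p : Pj T S) : Part T := fun k => (p.fp k).top

theorem pull_le_ptop (p : Pj T S) (A : Part S) (k : ℕ) : A.pull p k ≤ ptop p k := (p.fp k).map_le_top (A k)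

/-- AUXILIARY SYSTEMS -/
structure Sub (s : MSys S M E ι) (p : Pj T S) (s' : MSys T M E' κ) : Prop where
  pt : s'.Q = p.vv s.Q
  tp : ∀ i, ∃ (j : κ) (Z : Part T), NI Z (ptop p) (((s.lf i).win 0).pull p) ∧
    ∀ b : ℝ, 0 ≤ b → b ≤ 1 → PLe ((s'.lf j).win b) (Pjn (((s.lf i).win b).pull p) Z)

/-- classes which are closed under auxiliary systems -/
def SubCl {M : ℕ} (Cl : MCl M) : Prop := ∀ (S : Sp) (g r : ℕ) (s : MSys S M (lin g) (Fin r)), Cl S g r s →
  ∀ (T : Sp) (p : Pj T S) (g' r' : ℕ) (s' : MSys T M (lin g') (Fin r')), Sub s p s' → Cl T g' r' s'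

theorem subCl_top (M : ℕ) : SubCl (top M) := fun _ _ _ _ _ _ _ _ _ _ _ => trivial

variable {s : MSys S M E ι} {p : Pj T S} {s' : MSys T M E' κ}

/-- an information independent given the window 0 is independent given every finer information of the space -/
theorem NI_fin {Z : Part T} {A : Part S} (h : NI Z (ptop p) (A.pull p)) {B : Part S} (hAB : PLe A B) :
    NI Z (ptop p) (B.pull p) := by
  have h1 : NI Z (ptop p) (Pjn (A.pull p) (B.pull p)) :=
    h.cond ((PLe_of_le (pull_le_ptop p B)).trans (PLe_left _ _))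
  have h2 : NI Z (ptop p) (Pjn (B.pull p) (A.pull p)) := by
    have e : Pjn (B.pull p) (A.pull p) = Pjn (A.pull p) (B.pull p) := by funext k; exact sup_comm _ _
    rw [e]
    exact h1
  exact h2.uncond (NI_of_PLe (PLe_pull hAB p)).symm

/-- the same for informations of the extension below the space -/
theorem NI_fin' {Z A B : Part T} (h : NI Z (ptop p) A) (hAB : PLe A B) (hB : PLe B (ptop p)) : NI Z (ptop p) B := by
  have h1 : NI Z (ptop p) (Pjn A B) := h.cond (hB.trans (PLe_left _ _))
  have h2 : NI Z (ptop p) (Pjn B A) := by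
    have e : Pjn B A = Pjn A B := by funext k; exact sup_comm _ _
    rw [e]
    exact h1
  exact h2.uncond (NI_of_PLe hAB).symm

/-! ### labels of the auxiliary system -/

/-- finite level: leak at `W`, from the leak at `V`, which is known to `W` and `Z` -/
theorem leak_aux {F : FSp} (l : FLab F) (W B P Z V : FL F) (hB : B ≤ P) :
    l.leak W ≤ l.leak V + h V (W ⊔ Z) + (I Z P W + l.leak B) := by
  have h1 := l.leak_le_leak (W ⊔ Z) V
  have h2 : l.leak W ≤ I (l.p.map Z) l.v (l.p.map W) + l.leak (W ⊔ Z) := by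
    have a1 : I l.v l.p.top (l.p.map W) ≤ I l.v (l.p.map Z ⊔ l.p.top) (l.p.map W) :=
      I_mono_right (le_sup_right.trans le_sup_left)
    have a2 := I_chain_right l.v (l.p.map Z) l.p.top (l.p.map W)
    have a3 : I l.v l.p.top (l.p.map Z ⊔ l.p.map W) = l.leak (W ⊔ Z) := by
      unfold FLab.leak
      rw [l.p.map_sup, sup_comm]
    rw [a3] at a2
    rw [a2, I_comm l.v (l.p.map Z)] at a1
    exact a1
  have h3 := I_le_uncond (l.p.map Z) l.v (l.p.map W) (l.p.map B)
  have h4 : I (l.p.map Z) l.v (l.p.map W ⊔ l.p.map B) ≤ l.leak B := by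
    have a1 : I (l.p.map Z) l.v (l.p.map W ⊔ l.p.map B) ≤ I l.v l.p.top (l.p.map W ⊔ l.p.map B) := by
      rw [I_comm]
      exact I_mono_right ((l.p.map_le_top Z).trans le_sup_left)
    refine a1.trans ?_
    have a2 : I l.v l.p.top (l.p.map W ⊔ l.p.map B) = l.leak (W ⊔ B) := by
      unfold FLab.leak
      rw [l.p.map_sup]
    rw [a2]
    exact l.leak_anti le_sup_right
  have h5 : I (l.p.map Z) (l.p.map B) (l.p.map W) ≤ I Z P W := by
    rw [l.p.I_map]
    exact I_mono_right (hB.trans le_sup_left)
  linarith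

/-- LABELS: a label without leak at an information `B` of the space (the point, or its digits) and at the windows `c` of the
types of `s'` has no leak at the window `c` of the types of `s` -/
theorem Sub.leak (H : Sub s p s') {B : Part S} (l : Lab T) (hB : Nul T (fun k => (l k).leak (B.pull p k))) {c : ℝ}
    (h0 : 0 ≤ c) (h1 : c ≤ 1) (hw : ∀ j, Nul T (fun k => (l k).leak ((s'.lf j).win c k))) (i : ι) :
    Nul T (fun k => (l k).leak (((s.lf i).win c).pull p k)) := by
  obtain ⟨j, Z, hZ, hW⟩ := H.tp i
  have h2 : NI Z (ptop p) (((s.lf i).win c).pull p) := NI_fin hZ ((s.lf i).win_mono h0)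
  have h3 := ((hw j).add (hW c h0 h1)).add (Nul.add h2 hB)
  refine h3.of_le (Eventually.of_forall fun k => FLab.leak_nonneg _ _) (Eventually.of_forall fun k => ?_)
  exact leak_aux (l k) (((s.lf i).win c).pull p k) (B.pull p k) (ptop p k) (Z k) ((s'.lf j).win c k)
    (pull_le_ptop p B k)

/-- visible labels of the window `c` -/
theorem Sub.dmc (H : Sub s p s') (l : Lab T) {c : ℝ} (h0 : 0 ≤ c) (h1 : c ≤ 1) (hl : s'.DMc c l) :
    (s.pull p).DMc c l := by
  have e1 : pcd s'.Q = (pcd s.Q).pull p := by
    rw [H.pt]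
    exact pcd_pull p s.Q
  have h2 : Nul T (fun k => (l k).leak ((pcd s.Q).pull p k)) := by
    rw [← e1]
    exact hl none
  intro a
  rcases a with _ | i
  · show Nul T (fun k => (l k).leak (pcd (p.vv s.Q) k))
    rw [pcd_pull]
    exact h2
  · show Nul T (fun k => (l k).leak (((s.lf i).pull p).win c k))
    rw [win_pull]
    exact H.leak l h2 h0 h1 (fun j => hl (some j)) i

/-! ### examples and rules -/

theorem Sub.pull (s : MSys S M E ι) (p : Pj T S) : Sub s p (s.pull p) where
  pt := rfl
  tp := fun i => ⟨i, fun _ => ⊥, by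
    refine ⟨?_, fun b _ _ => ?_⟩
    · exact NI_of_PLe (PLe_of_le fun k => bot_le)
    · have e : ((s.pull p).lf i).win b = ((s.lf i).win b).pull p := win_pull p (s.lf i) b
      rw [e]
      exact PLe_left _ _⟩

/-- more types -/
theorem Sub.union (H : Sub s p s') (l : κ' → Leaf T s'.Q E') : Sub s p (s'.union l) where
  pt := H.pt
  tp := fun i => by
    obtain ⟨j, Z, h1, h2⟩ := H.tp i
    exact ⟨Sum.inl j, Z, h1, h2⟩

/-- other indices -/
theorem Sub.ren (H : Sub s p s') {f : κ' → κ} (hf : Function.Surjective f) : Sub s p (s'.ren f) where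
  pt := H.pt
  tp := fun i => by
    obtain ⟨j, Z, h1, h2⟩ := H.tp i
    obtain ⟨j', rfl⟩ := hf j
    exact ⟨j', Z, h1, h2⟩

theorem pull_comp (q : Pj R T) (p : Pj T S) (A : Part S) : A.pull (q.comp p) = (A.pull p).pull q := by
  funext k
  exact FPj.comp_map (q.fp k) (p.fp k) (A k)

theorem ptop_comp (q : Pj R T) (p : Pj T S) : ptop (q.comp p) = (ptop p).pull q := by
  funext k
  rfl

/-- auxiliary systems of auxiliary systems -/
theorem Sub.trans (H : Sub s p s') {q : Pj R T} {s'' : MSys R M E'' κ'} (H' : Sub s' q s'') :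
    Sub s (q.comp p) s'' where
  pt := by
    rw [H'.pt, H.pt]
    rfl
  tp := fun i => by
    obtain ⟨j, Z, h1, h2⟩ := H.tp i
    obtain ⟨j', Z', h1', h2'⟩ := H'.tp j
    refine ⟨j', Pjn (Z.pull q) Z', ?_, fun b hb0 hb1 => ?_⟩
    · rw [pull_comp, ptop_comp]
      have a1 : NI (Z.pull q) ((ptop p).pull q) ((((s.lf i).win 0).pull p).pull q) := h1.pull q
      have a2 : PLe (((s'.lf j).win 0).pull q) (Pjn (Z.pull q) ((((s.lf i).win 0).pull p).pull q)) := by
        have a3 := PLe_pull (h2 0 le_rfl zero_le_one) q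
        rw [Pjn_pull] at a3
        have e : Pjn (Z.pull q) ((((s.lf i).win 0).pull p).pull q) =
            Pjn ((((s.lf i).win 0).pull p).pull q) (Z.pull q) := by funext k; exact sup_comm _ _
        rw [e]
        exact a3
      have a4 : NI Z' (ptop q) (Pjn (Z.pull q) ((((s.lf i).win 0).pull p).pull q)) :=
        NI_fin' h1' a2 (PLe_of_le fun k => sup_le (pull_le_ptop q Z k) (pull_le_ptop q _ k))
      have a5 : NI Z' ((ptop p).pull q) (Pjn (Z.pull q) ((((s.lf i).win 0).pull p).pull q)) :=
        a4.mono_right ((PLe_of_le (pull_le_ptop q (ptop p))).trans (PLe_left _ _))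
      exact a1.chain a5
    · rw [pull_comp]
      refine (h2' b hb0 hb1).trans ?_
      refine PLe.sup_le ?_ ?_
      · have a3 := PLe_pull (h2 b hb0 hb1) q
        rw [Pjn_pull] at a3
        refine a3.trans (PLe_of_le fun k => ?_)
        exact sup_le_sup_left le_sup_left _
      · exact PLe_of_le fun k => le_sup_of_le_right le_sup_right

end

end Pool.Agent.Helper80.SUB
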