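import Pool.Agent.Helper80.SUB.Def

/-! AUXILIARY SYSTEMS ON EVENTS: an event of an extension of the auxiliary system is an auxiliary system of the event of the
system. -/

set_option autoImplicit false

namespace Pool.Agent.Helper80.SUB

open Finset Filter Topology Pool.Agent.Helper69.RK Pool.Agent.Helper31.EC Pool.Agent.Helper31.EC.Sp
open Pool.Agent.Helper40.EL Pool.Agent.Helper3.LF Pool.Agent.Helper84.MT Pool.Agent.Helper36.AM
open Pool.Agent.Helper38.NSL

noncomputable section

variable {S T U : Sp} {M : ℕ} {E E' : ℕ → ℕ} {ι κ : Type}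

/-- the projection between the restricted spaces -/
def imj (p : Pj T S) (q : Pj U T) (A : ∀ k, (U.F k).Ω → Prop) : Pj (Sp.im q A) (Sp.im (q.comp p) A) where
  π := p.π
  law := fun k => (push_comp (q.π k) (p.π k) ((U.F k).rest (A k)).μ).symm
  hZ := fun k ω ω' h h' => p.hZ k ω ω' (FSp.im_supp (q.fp k) (A k) ω h) (FSp.im_supp (q.fp k) (A k) ω' h')
  hn := p.hn

theorem im_pull_comp (p : Pj T S) (q : Pj U T) (A : ∀ k, (U.F k).Ω → Prop) (X : Part S) :
    Part.im q A (X.pull p) = Part.pull (imj p q A) (X.im (q.comp p) A) := by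
  funext k
  show FSp.imap (q.fp k) (A k) ((p.fp k).map (X k)) = ((imj p q A).fp k).map (FSp.imap ((q.comp p).fp k) (A k) (X k))
  induction X k using fc_ind with
  | _ B => rfl

theorem im_ptop (p : Pj T S) (q : Pj U T) (A : ∀ k, (U.F k).Ω → Prop) : Part.im q A (ptop p) = ptop (imj p q A) := rfl

/-- null entropies on events of extensions -/
theorem PLe_im' (p : Pj T S) (A : ∀ k, (T.F k).Ω → Prop) (hA : 0 < ul (T.pr A)) {X Y : Part S} (h : PLe X Y) :
    PLe (X.im p A) (Y.im p A) := by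
  have h1 : NI X X Y := NI_of_PLe h
  have h2 := h1.im p A hA
  refine Nul.of_le (S := Sp.im p A) h2 (Eventually.of_forall fun _ => h_nonneg _ _) (Eventually.of_forall fun k => ?_)
  rw [I_self]

theorem Sub.im {s : MSys S M E ι} {p : Pj T S} {s' : MSys T M E' κ} (H : Sub s p s') (q : Pj U T)
    (A : ∀ k, (U.F k).Ω → Prop) (hA : 0 < ul (U.pr A)) : Sub (s.im (q.comp p) A hA) (imj p q A) (s'.im q A hA) := by
  obtain ⟨Q', lf'⟩ := s'
  have hQ : Q' = p.vv s.Q := H.pt
  subst hQ
  refine ⟨rfl, fun i => ?_⟩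
  obtain ⟨j, Z, h1, h2⟩ := H.tp i
  refine ⟨j, Z.im q A, ?_, fun b b0 b1 => ?_⟩
  · have h3 := h1.im q A hA
    rw [im_pull_comp, im_ptop] at h3
    exact h3
  · have h3 := PLe_im' q A hA (h2 b b0 b1)
    have e : Part.im q A (Pjn (((s.lf i).win b).pull p) Z) =
        Pjn (Part.im q A (((s.lf i).win b).pull p)) (Z.im q A) := by
      funext k
      exact FSp.imap_sup (q.fp k) (A k) _ _
    rw [e, im_pull_comp] at h3
    exact h3

end

end Pool.Agent.Helper80.SUB
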