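import Pool.Agent.Helper80.SUB.Def
import Pool.Agent.Helper76.ADP.Adl
import Pool.Agent.Helper82.LPW.Lipg

/-! AUXILIARY LEAVES. `SubL l p l'`: the leaf `l'` on the extension `p` is auxiliary to the leaf `l` (the condition of
`Sub` for one type). Helper76's adapted leaf over an information which is independent of the space given the window `0`
is auxiliary (`sub_adl`), from helper82's pointwise LIPW. Finitely many adapted leaves in one extension. -/

set_option autoImplicit false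

namespace Pool.Agent.Helper80.SUB

open Finset Filter Topology Pool.Agent.Helper69.RK Pool.Agent.Helper31.EC Pool.Agent.Helper31.EC.Sp
open Pool.Agent.Helper40.EL Pool.Agent.Helper3.LF Pool.Agent.Helper84.MT Pool.Agent.Helper36.AM
open Pool.Agent.Helper38.NSL Pool.Agent.Helper76.ADP

noncomputable section

variable {R S T : Sp} {M : ℕ} {E E' E'' : ℕ → ℕ} {ι κ κ' : Type}

/-- THE LEAF `l'` IS AUXILIARY to the leaf `l` -/
def SubL {Q : S.VV M} {Q' : T.VV M} (l : Leaf S Q E) (p : Pj T S) (l' : Leaf T Q' E') : Prop :=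
  ∃ Z : Part T, NI Z (ptop p) ((l.win 0).pull p) ∧
    ∀ b : ℝ, 0 ≤ b → b ≤ 1 → PLe (l'.win b) (Pjn ((l.win b).pull p) Z)

theorem sub_iff {s : MSys S M E ι} {p : Pj T S} {s' : MSys T M E' κ} :
    Sub s p s' ↔ s'.Q = p.vv s.Q ∧ ∀ i, ∃ j, SubL (s.lf i) p (s'.lf j) :=
  ⟨fun h => ⟨h.pt, h.tp⟩, fun h => ⟨h.1, h.2⟩⟩

/-- in a further extension -/
theorem SubL.pull {Q : S.VV M} {Q' : T.VV M} {l : Leaf S Q E} {p : Pj T S} {l' : Leaf T Q' E'} (h : SubL l p l')
    (q : Pj R T) : SubL l (q.comp p) (l'.pull q) := by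
  obtain ⟨Z, h1, h2⟩ := h
  refine ⟨Z.pull q, ?_, fun b h0 h1' => ?_⟩
  · rw [pull_comp, ptop_comp]
    exact h1.pull q
  · have e : (l'.pull q).win b = (l'.win b).pull q := win_pull q l' b
    rw [e, pull_comp, ← Pjn_pull]
    exact PLe_pull (h2 b h0 h1') q

/-- the same leaf in an extension -/
theorem SubL.self {Q : S.VV M} (l : Leaf S Q E) (p : Pj T S) : SubL l p (l.pull p) :=
  ⟨fun _ => ⊥, NI_of_PLe (PLe_of_le fun _ => bot_le), fun b _ _ => by
    have e : (l.pull p).win b = (l.win b).pull p := win_pull p l b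
    rw [e]
    exact PLe_left _ _⟩

/-- the leaf matters only through its windows -/
theorem SubL.of_win {Q : S.VV M} {Q' Q'' : T.VV M} {l : Leaf S Q E} {p : Pj T S} {l' : Leaf T Q' E'}
    {l'' : Leaf T Q'' E''} (h : SubL l p l') (hw : ∀ b : ℝ, 0 ≤ b → b ≤ 1 → PLe (l''.win b) (l'.win b)) :
    SubL l p l'' := by
  obtain ⟨Z, h1, h2⟩ := h
  exact ⟨Z, h1, fun b b0 b1 => (hw b b0 b1).trans (h2 b b0 b1)⟩

theorem SubL.trans {Q : S.VV M} {Q' : T.VV M} {Q'' : R.VV M} {l : Leaf S Q E} {p : Pj T S} {l' : Leaf T Q' E'}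
    {q : Pj R T} {l'' : Leaf R Q'' E''} (h : SubL l p l') (h' : SubL l' q l'') : SubL l (q.comp p) l'' := by
  obtain ⟨Z, h1, h2⟩ := h
  obtain ⟨Z', h1', h2'⟩ := h'
  refine ⟨Pjn (Z.pull q) Z', ?_, fun b hb0 hb1 => ?_⟩
  · rw [pull_comp, ptop_comp]
    have a1 : NI (Z.pull q) ((ptop p).pull q) (((l.win 0).pull p).pull q) := h1.pull q
    have a2 : PLe ((l'.win 0).pull q) (Pjn (Z.pull q) (((l.win 0).pull p).pull q)) := by
      have a3 := PLe_pull (h2 0 le_rfl zero_le_one) q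
      rw [Pjn_pull] at a3
      have e : Pjn (Z.pull q) (((l.win 0).pull p).pull q) = Pjn (((l.win 0).pull p).pull q) (Z.pull q) := by
        funext k; exact sup_comm _ _
      rw [e]
      exact a3
    have a4 : NI Z' (ptop q) (Pjn (Z.pull q) (((l.win 0).pull p).pull q)) :=
      NI_fin' h1' a2 (PLe_of_le fun k => sup_le (pull_le_ptop q Z k) (pull_le_ptop q _ k))
    have a5 : NI Z' ((ptop p).pull q) (Pjn (Z.pull q) (((l.win 0).pull p).pull q)) :=
      a4.mono_right ((PLe_of_le (pull_le_ptop q (ptop p))).trans (PLe_left _ _))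
    exact a1.chain a5
  · rw [pull_comp]
    refine (h2' b hb0 hb1).trans ?_
    refine PLe.sup_le ?_ ?_
    · have a3 := PLe_pull (h2 b hb0 hb1) q
      rw [Pjn_pull] at a3
      refine a3.trans (PLe_of_le fun k => ?_)
      exact sup_le_sup_left le_sup_left _
    · exact PLe_of_le fun k => le_sup_of_le_right le_sup_right

/-! ### fresh digits -/

/-- FRESH DIGITS ARE INDEPENDENT of everything of the old space -/
theorem ni_fresh (S : Sp) (q : ℕ) : NI (fun k => fc (rfr S q k)) (ptop (rpj S q)) (fun _ => ⊥) := by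
  refine NI.of_le (f := fun _ => 0) ?_ (Eventually.of_forall fun k => ?_)
  · have e : (fun k => (0 : ℝ) / (S.F k).n) = fun _ => (0 : ℝ) := by
      funext k
      rw [zero_div]
    show Tendsto (fun k => (0 : ℝ) / (S.F k).n) UF (𝓝 0)
    rw [e]
    exact tendsto_const_nhds
  · have h1 : H (fc (rfr S q k) : FL ((rsp S q).F k)) = Real.logb 2 (Fintype.card (Gf S q k)) := by
      have h2 := Pool.Agent.Helper81.AD.fu_e (S.F k) (Gf S q k) (S.F k).Z
      rw [← h2]
      rfl
    have h3 : Helper31.EC.h (fc (rfr S q k) : FL ((rsp S q).F k)) (ptop (rpj S q) k) =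
        Real.logb 2 (Fintype.card (Gf S q k)) := by
      have h2 := Pool.Agent.Helper81.AD.fu_e (S.F k) (Gf S q k) (⊥ ⊓ (S.F k).Z)
      rw [← h2]
      show Helper31.EC.h (fc (rfr S q k) : FL ((rsp S q).F k)) (fc (Setoid.ker (rpj S q |>.fp k).π)) = _
      rw [h_fc]
      rfl
    have h4 : I (fc (rfr S q k) : FL ((rsp S q).F k)) (ptop (rpj S q) k) ⊥ =
        H (fc (rfr S q k) : FL ((rsp S q).F k)) - Helper31.EC.h (fc (rfr S q k) : FL ((rsp S q).F k)) (ptop (rpj S q) k) := by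
      unfold Helper31.EC.I Helper31.EC.h
      rw [sup_bot_eq, sup_bot_eq, sup_bot_eq, H_bot]
      ring
    rw [h4, h1, h3, sub_self]

theorem ple_evl {A B : Part S} (h : ∀ᶠ n in UF, A n ≤ B n) : PLe A B :=
  (Nul_zero S).of_le (Eventually.of_forall fun _ => h_nonneg _ _) (h.mono fun _ hn => (h_zero hn).le)

/-- the information of an adapted leaf: the information of the rows and the fresh digits -/
def ZA (V : ∀ k, Setoid (T.F k).Ω) (q : ℕ) : Part (rsp T q) :=
  Pjn (Part.pull (rpj T q) (fun k => fc (V k))) (fun k => fc (rfr T q k))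

/-- the information of an adapted leaf is independent of the space -/
theorem za_ni {Q : S.VV M} {l : Leaf S Q E} {p : Pj T S} {V : ∀ k, Setoid (T.F k).Ω}
    (hV : NI (fun k => fc (V k)) (ptop p) ((l.win 0).pull p)) (q : ℕ) :
    NI (ZA V q) (ptop ((rpj T q).comp p)) ((l.win 0).pull ((rpj T q).comp p)) := by
  rw [pull_comp, ptop_comp]
  have h1 : NI (Part.pull (rpj T q) (fun k => fc (V k))) ((ptop p).pull (rpj T q)) (((l.win 0).pull p).pull (rpj T q)) :=
    hV.pull _
  have h2 : NI (fun k => fc (rfr T q k)) (ptop (rpj T q)) (Pjn (Part.pull (rpj T q) (fun k => fc (V k)))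
      (((l.win 0).pull p).pull (rpj T q))) :=
    NI_fin' (ni_fresh T q) (PLe_of_le fun _ => bot_le)
      (PLe_of_le fun k => sup_le (pull_le_ptop _ _ k) (pull_le_ptop _ _ k))
  exact h1.chain (h2.mono_right ((PLe_of_le (pull_le_ptop (rpj T q) (ptop p))).trans (PLe_left _ _)))

/-- **THE ADAPTED LEAF IS AUXILIARY** -/
theorem sub_adl {Q : S.VV M} (l : Leaf S Q E) (p : Pj T S) {v q D g L : ℕ} {hvq : v + q = M}
    {V : ∀ k, Setoid (T.F k).Ω} (hV : NI (fun k => fc (V k)) (ptop p) ((l.win 0).pull p))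
    {Ex : ∀ k, (T.F k).Ω → (Fin v ⊕ Fin q ≃ Fin M)} {f : ∀ k, (T.F k).Ω → Fin q → MvPolynomial (Fin M) ℝ}
    {w : ∀ k, (T.F k).Ω → Fin q → ℝ} (x : RowsF V (p.vv Q) D Ex f w) {U : T.VV q}
    {La : ∀ k, Setoid ((rsp T q).F k).Ω} {P : (rsp T q).VV M} {u : (rsp T q).VV q} {N : ℕ → ℝ}
    {c : ∀ k, ((rsp T q).F k).Ω → Fin M → ℤ} {β : ∀ k, ((rsp T q).F k).Ω → Fin L}
    {A : ∀ k, ((rsp T q).F k).Ω → Prop} {l' : Leaf (rsp T q) ((rpj T q).vv (p.vv Q)) (Pool.Agent.Helper84.MT.lin g)}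
    (a : ALeaf hvq V (p.vv Q) Ex f w U g L La P u N c β A l') : SubL l ((rpj T q).comp p) l' := by
  refine ⟨ZA V q, za_ni hV q, fun b b0 b1 => (a.win b).trans ?_⟩
  have e1 : (fun k => fc (aB V (aS (p.vv Q) Ex) U w b k)) = Pjn (ZA V q) (Pjn (Part.pull
      (rpj T q) (fun k => fc (Setoid.ker ((aS (p.vv Q) Ex).cellv b k)))) (Part.pull
        (rpj T q) (fun k => fc (Setoid.ker (acel U w b k))))) := by
    funext k
    show fc ((rpj T q).pb V k ⊓ rfr T q k ⊓ (rpj T q).pb (fun k => Setoid.ker ((aS (p.vv Q) Ex).cellv b k)) k ⊓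
      (rpj T q).pb (fun k => Setoid.ker (acel U w b k)) k) = _
    rw [fc_inf, fc_inf, fc_inf, sup_assoc]
    rfl
  rw [e1]
  have hZ : PLe (Part.pull (rpj T q) (fun k => fc (V k))) (ZA V q) := PLe_left _ _
  -- the free coordinates
  have h1 : PLe (fun k => fc (Setoid.ker ((aS (p.vv Q) Ex).cellv b k))) (Pjn ((l.win b).pull p) (fun k => fc (V k))) := by
    have h2 : PLe (fun k => fc (Setoid.ker ((aS (p.vv Q) Ex).cellv b k)))
        (Pjn (fun k => fc (Setoid.ker ((p.vv Q).cellv b k))) (fun k => fc (V k))) := by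
      refine ple_evl ?_
      filter_upwards [x.msE] with k hk
      show fc _ ≤ fc _ ⊔ fc _
      rw [← fc_inf]
      refine fc_le fun ω ω' a a' z r => ?_
      have h3 : Ex k ω = Ex k ω' := hk ω ω' a a' z r.2
      have h4 : (p.vv Q).cellv b k ω = (p.vv Q).cellv b k ω' := r.1
      show (aS (p.vv Q) Ex).cellv b k ω = (aS (p.vv Q) Ex).cellv b k ω'
      funext i
      show ⌊(p.vv Q).v k ω (Ex k ω (Sum.inl i)) / T.dl b k⌋ = ⌊(p.vv Q).v k ω' (Ex k ω' (Sum.inl i)) / T.dl b k⌋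
      rw [← h3]
      exact congrFun h4 (Ex k ω (Sum.inl i))
    refine h2.trans (PLe.sup_le ?_ (PLe_right _ _))
    have h3 := (l.pull p).dg_win b0 b1
    have e2 : (l.pull p).win b = (l.win b).pull p := win_pull p l b
    rw [e2] at h3
    exact h3.trans (PLe_left _ _)
  -- the rows
  have h2 : PLe (fun k => fc (Setoid.ker (acel U w b k))) (Pjn ((l.win b).pull p) (fun k => fc (V k))) :=
    Pool.Agent.Helper82.LPW.lipg_rows l p V hV f x.deg w x.w01 x.msf x.msw x.bd x.der U a.tU b0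
  have key : ∀ {B : Part T}, PLe B (Pjn ((l.win b).pull p) (fun k => fc (V k))) →
      PLe (B.pull (rpj T q)) (Pjn ((l.win b).pull ((rpj T q).comp p)) (ZA V q)) := by
    intro B hB
    have h3 := PLe_pull hB (rpj T q)
    have e3 := Pjn_pull (rpj T q) ((l.win b).pull p) (fun k => fc (V k))
    refine (h3.trans (PLe_of_le fun k => le_of_eq (congrFun e3 k))).trans
      (PLe.sup_le ?_ (hZ.trans (PLe_right _ _)))
    rw [pull_comp]
    exact PLe_left _ _
  exact PLe.sup_le (PLe_right _ _) (PLe.sup_le (key h1) (key h2))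

/-! ### rows in an extension -/

theorem sum_pj (p : Pj T S) (k : ℕ) (g : (S.F k).Ω → ℝ) :
    ∑ ω, (T.F k).μ ω * g (p.π k ω) = ∑ ω, (S.F k).μ ω * g ω := by
  rw [← Pool.Agent.Helper66.HK.e5_sum_push (T.F k).μ (p.π k) g, p.law]

theorem dl_pjj (p : Pj T S) (r : ℝ) (k : ℕ) : T.dl r k = S.dl r k := by
  unfold Sp.dl
  rw [p.hn k]

/-- the rows of an extension -/
theorem rowsF_pull {Q : S.VV M} {v q D : ℕ} {V : ∀ k, Setoid (S.F k).Ω}
    {Ex : ∀ k, (S.F k).Ω → (Fin v ⊕ Fin q ≃ Fin M)} {f : ∀ k, (S.F k).Ω → Fin q → MvPolynomial (Fin M) ℝ}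
    {w : ∀ k, (S.F k).Ω → Fin q → ℝ} (x : RowsF V Q D Ex f w) (p : Pj T S) :
    RowsF (p.pb V) (p.vv Q) D (fun k ω => Ex k (p.π k ω)) (fun k ω => f k (p.π k ω)) (fun k ω => w k (p.π k ω)) where
  w01 := by
    filter_upwards [x.w01] with k hk ω hω
    exact hk _ (p.supp k ω hω)
  deg := by
    filter_upwards [x.deg] with k hk ω hω
    exact hk _ (p.supp k ω hω)
  msE := by
    filter_upwards [x.msE] with k hk ω ω' a a' z h
    exact hk _ _ (p.supp k ω a) (p.supp k ω' a') ((p.hZ k ω ω' a a').mp z) h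
  msf := by
    filter_upwards [x.msf] with k hk ω ω' a a' z h
    exact hk _ _ (p.supp k ω a) (p.supp k ω' a') ((p.hZ k ω ω' a a').mp z) h
  msw := by
    filter_upwards [x.msw] with k hk ω ω' a a' z h
    exact hk _ _ (p.supp k ω a) (p.supp k ω' a') ((p.hZ k ω ω' a a').mp z) h
  bd := fun η hη => by
    refine (p.typ (x.bd η hη)).mono (Eventually.of_forall fun k ω _ h => ?_)
    rw [p.hn]
    exact h
  der := fun η hη => by
    refine (p.typ (x.der η hη)).mono (Eventually.of_forall fun k ω _ h => ?_)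
    rw [dl_pjj p, p.hn]
    exact h
  det := fun η hη => by
    refine (p.typ (x.det η hη)).mono (Eventually.of_forall fun k ω _ h => ?_)
    rw [p.hn]
    exact h
  fu := fun ε hε => by
    filter_upwards [x.fu ε hε] with k hk
    rw [p.hn, sum_pj p k fun ω => ∑ j, w k ω j]
    refine hk.trans (le_of_eq ?_)
    congr 1
    have e1 : Setoid.ker ((p.vv Q).cellv 1 k) = Setoid.comap (p.fp k).π (Setoid.ker (Q.cellv 1 k)) := by
      rw [vv_cellv]
      rfl
    rw [e1]
    exact ((p.fp k).e_comap_base _ _).symm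

/-! ### common fresh digits -/

open Classical in
/-- a vector of length `n` as a vector of length `q` and the rest -/
def embq (G : Type) {q n : ℕ} (e : Fin q ↪ Fin n) : (Fin n → G) ≃ (Fin q → G) × ({x : Fin n // x ∉ Set.range e} → G) :=
  (Equiv.piEquivPiSubtypeProd (fun x => x ∈ Set.range e) (fun _ => G)).trans
    (Equiv.prodCongr (Equiv.arrowCongr (Equiv.ofInjective e e.injective).symm (Equiv.refl G)) (Equiv.refl _))

theorem embq_fst (G : Type) {q n : ℕ} (e : Fin q ↪ Fin n) (g : Fin n → G) : (embq G e g).1 = fun j => g (e j) := rfl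

open Classical in
theorem fu_rem (F : FSp) (G : Type) [Fintype G] [Nonempty G] {q n : ℕ} (e : Fin q ↪ Fin n) :
    push (fun w : (Pool.Agent.Helper81.AD.fu F (Fin n → G)).Ω =>
      ((w.1, fun j => w.2 (e j)) : (Pool.Agent.Helper81.AD.fu F (Fin q → G)).Ω))
      (Pool.Agent.Helper81.AD.fu F (Fin n → G)).μ = (Pool.Agent.Helper81.AD.fu F (Fin q → G)).μ := by
  funext x
  obtain ⟨ω, h⟩ := x
  rw [push_ind]
  show ∑ w : F.Ω × (Fin n → G), e1_ind ((w.1, fun j => w.2 (e j)) = (ω, h)) * (F.μ w.1 / Fintype.card (Fin n → G)) =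
    F.μ ω / Fintype.card (Fin q → G)
  have hn : (Fintype.card (Fin n → G) : ℝ) ≠ 0 := by exact_mod_cast Fintype.card_ne_zero
  have hq : (Fintype.card (Fin q → G) : ℝ) ≠ 0 := by exact_mod_cast Fintype.card_ne_zero
  have hc : (Fintype.card (Fin n → G) : ℝ) =
      Fintype.card (Fin q → G) * Fintype.card ({x : Fin n // x ∉ Set.range e} → G) := by
    rw [Fintype.card_congr (embq G e), Fintype.card_prod]
    push_cast
    ring
  rw [Fintype.sum_prod_type, Finset.sum_eq_single ω]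
  · have h1 : ∀ g : Fin n → G, e1_ind ((ω, fun j => g (e j)) = (ω, h)) * (F.μ ω / Fintype.card (Fin n → G)) =
        (fun y : (Fin q → G) × ({x : Fin n // x ∉ Set.range e} → G) =>
          e1_ind (y.1 = h) * (F.μ ω / Fintype.card (Fin n → G))) (embq G e g) := by
      intro g
      show e1_ind ((ω, fun j => g (e j)) = (ω, h)) * (F.μ ω / Fintype.card (Fin n → G)) =
        e1_ind ((fun j => g (e j)) = h) * (F.μ ω / Fintype.card (Fin n → G))
      by_cases h2 : (fun j => g (e j)) = h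
      · rw [e1_ind_pos h2, e1_ind_pos (by rw [h2])]
      · rw [e1_ind_neg h2, e1_ind_neg (fun h3 => h2 (Prod.mk.inj h3).2)]
    rw [Finset.sum_congr rfl fun g _ => h1 g]
    refine (Equiv.sum_comp (embq G e) (fun y : (Fin q → G) × ({x : Fin n // x ∉ Set.range e} → G) =>
          e1_ind (y.1 = h) * (F.μ ω / Fintype.card (Fin n → G)))).trans ?_
    rw [Fintype.sum_prod_type, Finset.sum_eq_single h]
    · show ∑ _y : {x : Fin n // x ∉ Set.range e} → G, e1_ind (h = h) * (F.μ ω / Fintype.card (Fin n → G)) = _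
      rw [e1_ind_pos rfl, Finset.sum_const, Finset.card_univ, nsmul_eq_mul, one_mul, hc]
      rw [hc] at hn
      have hr : (Fintype.card ({x : Fin n // x ∉ Set.range e} → G) : ℝ) ≠ 0 := fun h0 => hn (by rw [h0, mul_zero])
      field_simp
    · intro h' _ hne
      refine Finset.sum_eq_zero fun y _ => ?_
      show e1_ind (h' = h) * _ = 0
      rw [e1_ind_neg hne, zero_mul]
    · intro h0
      exact absurd (Finset.mem_univ _) h0
  · intro ω' _ hne
    refine Finset.sum_eq_zero fun g _ => ?_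
    rw [e1_ind_neg (fun h3 => hne (Prod.mk.inj h3).1), zero_mul]
  · intro h0
    exact absurd (Finset.mem_univ _) h0

/-- some of the fresh digits -/
def rem (T : Sp) {q n : ℕ} (e : Fin q ↪ Fin n) : Pj (rsp T n) (rsp T q) where
  π := fun _ w => (w.1, fun j => w.2 (e j))
  law := fun k => fu_rem (T.F k) (Fin (gn T k + 1)) e
  hZ := fun _ _ _ _ _ => Iff.rfl
  hn := fun _ => rfl

theorem rem_comp (T : Sp) {q n : ℕ} (e : Fin q ↪ Fin n) : (rem T e).comp (rpj T q) = rpj T n := rfl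

/-- **MEMBERSHIP**: finitely many auxiliary leaves over extensions by fresh digits, in one extension -/
theorem sub_fam {s : MSys S M E ι} {p : Pj T S} {E' : ℕ → ℕ} {n : ℕ} (i : κ → ι) (hi : Function.Surjective i)
    (q : κ → ℕ) (e : ∀ j, Fin (q j) ↪ Fin n)
    (l : ∀ j, Leaf (rsp T (q j)) ((rpj T (q j)).vv (p.vv s.Q)) E')
    (h : ∀ j, SubL (s.lf (i j)) ((rpj T (q j)).comp p) (l j)) :
    Sub s ((rpj T n).comp p) (⟨(rpj T n).vv (p.vv s.Q), fun j => (l j).pull (rem T (e j))⟩ : MSys (rsp T n) M E' κ) := by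
  refine sub_iff.mpr ⟨rfl, fun a => ?_⟩
  obtain ⟨j, rfl⟩ := hi a
  exact ⟨j, (h j).pull (rem T (e j))⟩

end

end Pool.Agent.Helper80.SUB
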