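import Pool.Agent.Helper69.UDV.Par
import Pool.Agent.Helper80.SUB.Asm
import Pool.Agent.Helper29.MX.St

/-! [UDT] UNIT DIRECTIONS OF THICK LEAVES: some of the parameters of a leaf are rescaled coordinates of the point; helper76's
adapted leaves with `v` free coordinates have `v` unit directions, on all events of all extensions. -/

set_option autoImplicit false

namespace Pool.Agent.Helper80.SUB

open Finset Filter Topology Matrix Pool.Agent.Helper69.RK Pool.Agent.Helper31.EC Pool.Agent.Helper31.EC.Sp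
open Pool.Agent.Helper40.EL Pool.Agent.Helper84.MT Pool.Agent.Helper89.LX
open Pool.Agent.Helper63.FRT (h_celm_le celm_const celm)
open Pool.Agent.Helper76.ADP
open Pool.Agent.Helper76.THK (e00)

noncomputable section

variable {S T : Sp} {M : ℕ} {E : ℕ → ℕ}

/-- digits of level `b` of some of the parameters of a leaf over the window `a` -/
theorem par_digits_sub {Q : S.VV M} (l : Leaf S Q E) {v : ℕ} (β : Fin v ↪ Fin l.e) {a b : ℝ} (ha : 0 ≤ a) (hab : a ≤ b)
    (hb : b ≤ 1) (ε : ℝ) (hε : 0 < ε) :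
    ∀ᶠ k in UF, (v : ℝ) * (b - a) - ε ≤
      h (fc (Setoid.ker fun ω (i : Fin v) => l.Y.cellv b k ω (β i))) (l.win a k) / (S.F k).n := by
  classical
  set c : Fin l.e → ℝ := fun i => if i ∈ Finset.univ.map β then a else b with hc
  have h1 := Pool.Agent.Helper69.UDV.par_digits l ha hb (ε / 2) (by linarith)
  have h2 := h_celm_le l.Y (fun _ => a) c (fun i => by
    simp only [hc]
    split_ifs
    · exact le_rfl
    · exact hab) (fun k => l.La k ⊓ Setoid.ker (l.Y.cellv a k)) (fun _ => 1) (S.Sub_const zero_le_one)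
    (Eventually.of_forall fun k ω ω' _ _ _ r i => by
      rw [one_mul]
      exact abs_sub_le_of_floor_eq (S.dl_pos a k) (congrFun r.2 i)) (ε / 2) (by linarith)
  have h3 : ∑ i, (c i - a) = (l.e : ℝ) * (b - a) - v * (b - a) := by
    have e1 : ∀ i, c i - a = (b - a) - if i ∈ Finset.univ.map β then (b - a) else 0 := by
      intro i
      simp only [hc]
      split_ifs <;> ring
    rw [Finset.sum_congr rfl fun i _ => e1 i, Finset.sum_sub_distrib, Finset.sum_const, Finset.card_univ,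
      Fintype.card_fin, nsmul_eq_mul, Finset.sum_ite_mem, Finset.univ_inter, Finset.sum_const, Finset.card_map,
      Finset.card_univ, Fintype.card_fin, nsmul_eq_mul]
  rw [h3] at h2
  filter_upwards [h1, h2] with k a1 a2
  have hn := (S.F k).pos
  have b1 : h (fc (Setoid.ker (l.Y.cellv b k))) (l.win a k) ≤
      h (fc (Setoid.ker (celm l.Y c k))) (l.win a k) +
        h (fc (Setoid.ker fun ω (i : Fin v) => l.Y.cellv b k ω (β i))) (l.win a k) := by
    have c1 : fc (Setoid.ker (l.Y.cellv b k)) ≤ fc (Setoid.ker (celm l.Y c k)) ⊔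
        fc (Setoid.ker fun ω (i : Fin v) => l.Y.cellv b k ω (β i)) := by
      rw [← fc_inf]
      refine fc_mono fun ω ω' hh => ?_
      show l.Y.cellv b k ω = l.Y.cellv b k ω'
      funext i
      by_cases hi : i ∈ Finset.univ.map β
      · obtain ⟨j, _, rfl⟩ := Finset.mem_map.mp hi
        exact congrFun hh.2 j
      · have h4 : celm l.Y c k ω i = celm l.Y c k ω' i := congrFun hh.1 i
        have e1 : c i = b := by
          simp only [hc]
          exact if_neg hi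
        have e2 : ∀ ω, celm l.Y c k ω i = l.Y.cellv b k ω i := fun ω => by
          show ⌊l.Y.v k ω i / S.dl (c i) k⌋ = ⌊l.Y.v k ω i / S.dl b k⌋
          rw [e1]
        rw [e2, e2] at h4
        exact h4
    refine (h_mono c1).trans ?_
    exact h_sup_le _ _ _
  have e4 : h (fc (Setoid.ker (celm l.Y c k))) (fc (l.La k ⊓ Setoid.ker (l.Y.cellv a k))) =
      h (fc (Setoid.ker (celm l.Y c k))) (l.win a k) := rfl
  rw [e4] at a2
  have b2 : h (fc (Setoid.ker (l.Y.cellv b k))) (l.win a k) / (S.F k).n ≤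
      h (fc (Setoid.ker (celm l.Y c k))) (l.win a k) / (S.F k).n +
        h (fc (Setoid.ker fun ω (i : Fin v) => l.Y.cellv b k ω (β i))) (l.win a k) / (S.F k).n := by
    rw [← add_div]
    exact div_le_div_of_nonneg_right b1 hn.le
  linarith

/-- UNIT DIRECTIONS: some parameters are rescaled coordinates of the point -/
theorem par_uds {Q : S.VV M} (l : Leaf S Q E) {v : ℕ} (β : Fin v ↪ Fin l.e) (τ : ∀ k, (S.F k).Ω → Fin v → Fin M)
    (N : ℕ → ℝ) (c : ∀ k, (S.F k).Ω → Fin v → ℤ) (hN : S.Sub N)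
    (h1 : ∀ᶠ k in UF, ∀ ω, (S.F k).μ ω ≠ 0 → ∀ i, l.Y.v k ω (β i) = N k * Q.v k ω (τ k ω i) - c k ω i)
    (h2 : ∀ᶠ k in UF, ∀ ω ω', (S.F k).μ ω ≠ 0 → (S.F k).μ ω' ≠ 0 → (S.F k).Z ω ω' → l.La k ω ω' →
      c k ω = c k ω' ∧ τ k ω = τ k ω') {a b : ℝ} (ha : 0 ≤ a) (hab : a ≤ b) (hb : b ≤ 1) :
    (v : ℝ) * (b - a) ≤ ul (fun k => h (fc (Setoid.ker (Q.cellv b k))) (l.win a k) / (S.F k).n) := by
  have hBd : Part.Bd (S := S) (fun k => fc (Setoid.ker (Q.cellv b k))) := rpI_Bd (Q.bdd b).toInf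
  set X : S.VV v := Pool.Agent.Helper18.PRM.vcrd β l.Y with hX
  have eX : ∀ k, (Setoid.ker fun ω (i : Fin v) => l.Y.cellv b k ω (β i)) = Setoid.ker (X.cellv b k) := fun k => rfl
  have h3 : PLe (fun k => fc (Setoid.ker (X.cellv b k))) (fun k => fc (l.La k ⊓ Setoid.ker (Q.cellv b k))) := by
    apply PLe_cell X b _ N hN
    filter_upwards [h1, h2, hN.1] with k a1 a2 a3 ω ω' x y z r i
    show |l.Y.v k ω (β i) - l.Y.v k ω' (β i)| ≤ _
    obtain ⟨e2, e3⟩ := a2 ω ω' x y z r.1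
    rw [a1 ω x i, a1 ω' y i, e2, e3]
    have e1 : N k * Q.v k ω (τ k ω' i) - c k ω' i - (N k * Q.v k ω' (τ k ω' i) - c k ω' i) =
        N k * (Q.v k ω (τ k ω' i) - Q.v k ω' (τ k ω' i)) := by ring
    rw [e1, abs_mul, abs_of_nonneg a3]
    exact mul_le_mul_of_nonneg_left (abs_sub_le_of_floor_eq (S.dl_pos b k) (congrFun r.2 _)) a3
  apply le_of_forall_pos_le_add
  intro ε hε
  have h4 := par_digits_sub l β ha hab hb (ε / 2) (by linarith)
  have h5 := h3.eventually (gt_mem_nhds (show (0 : ℝ) < ε / 2 by linarith))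
  have h6 : (v : ℝ) * (b - a) - ε ≤ ul (fun k => h (fc (Setoid.ker (Q.cellv b k))) (l.win a k) / (S.F k).n) := by
    apply const_le_ul (hBd.ub _)
    filter_upwards [h4, h5] with k a1 a2
    rw [eX] at a1
    have hn := (S.F k).pos
    have b1 : h (fc (Setoid.ker (X.cellv b k))) (l.win a k) ≤
        h (fc (Setoid.ker (Q.cellv b k))) (l.win a k) +
          h (fc (Setoid.ker (X.cellv b k))) (fc (l.La k ⊓ Setoid.ker (Q.cellv b k))) := by
      have c1 := h_mono (B := l.win a k) (le_sup_right (a := fc (Setoid.ker (Q.cellv b k)))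
        (b := fc (Setoid.ker (X.cellv b k))))
      rw [h_chain] at c1
      have c2 : fc (l.La k ⊓ Setoid.ker (Q.cellv b k)) ≤ fc (Setoid.ker (Q.cellv b k)) ⊔ l.win a k := by
        rw [fc_inf]
        refine sup_le ?_ le_sup_left
        refine le_trans ?_ le_sup_right
        show fc (l.La k) ≤ fc (l.La k ⊓ Setoid.ker (l.Y.cellv a k))
        exact fc_mono inf_le_left
      have c3 := h_anti (A := fc (Setoid.ker (X.cellv b k))) c2
      linarith
    rw [le_div_iff₀ hn] at a1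
    rw [div_lt_iff₀ hn] at a2
    rw [le_div_iff₀ hn]
    have e1 : ((v : ℝ) * (b - a) - ε) * (S.F k).n = ((v : ℝ) * (b - a) - ε / 2) * (S.F k).n -
      ε / 2 * (S.F k).n := by ring
    rw [e1]
    linarith
  linarith

section

variable {v q D g L : ℕ} {hvq : v + q = M} {V : ∀ k, Setoid (S.F k).Ω} {Q : S.VV M}
  {Ex : ∀ k, (S.F k).Ω → (Fin v ⊕ Fin q ≃ Fin M)} {f : ∀ k, (S.F k).Ω → Fin q → MvPolynomial (Fin M) ℝ}
  {w : ∀ k, (S.F k).Ω → Fin q → ℝ} {U : S.VV q} {La : ∀ k, Setoid ((rsp S q).F k).Ω} {P : (rsp S q).VV M}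
  {u : (rsp S q).VV q} {N : ℕ → ℝ} {c : ∀ k, ((rsp S q).F k).Ω → Fin M → ℤ} {β : ∀ k, ((rsp S q).F k).Ω → Fin L}
  {A : ∀ k, ((rsp S q).F k).Ω → Prop} {l' : Leaf (rsp S q) ((rpj S q).vv Q) (Pool.Agent.Helper84.MT.lin g)}

/-- the free parameters -/
def emF {e v q M : ℕ} (hvq : v + q = M) (he : e = M) : Fin v ↪ Fin e :=
  ⟨fun i => Fin.cast he.symm (e00 hvq (Sum.inl i)), fun i j h => by
    have h2 : e00 hvq (Sum.inl i) = e00 hvq (Sum.inl j) := Fin.cast_injective he.symm h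
    exact Sum.inl_injective ((e00 hvq).injective h2)⟩

/-- UNIT DIRECTIONS OF THE ADAPTED LEAF, on all events of all extensions -/
theorem adl_ud (a : ALeaf hvq V Q Ex f w U g L La P u N c β A l')
    (hE : ∀ᶠ k in UF, ∀ ω ω', (S.F k).μ ω ≠ 0 → (S.F k).μ ω' ≠ 0 → (S.F k).Z ω ω' → V k ω ω' → Ex k ω = Ex k ω')
    {R T : Sp} (r : Pj R (rsp S q)) (p : Pj T R) (B : ∀ k, (T.F k).Ω → Prop) (hB : 0 < ul (T.pr B)) {x y : ℝ}
    (h0 : 0 ≤ x) (hxy : x ≤ y) (h1 : y ≤ 1) :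
    (v : ℝ) * (y - x) ≤ ul (fun k => h (fc (Setoid.ker (((r.vv ((rpj S q).vv Q)).im p B).cellv y k)))
      (((l'.pull r).im p B hB).win x k) / ((Sp.im p B).F k).n) := by
  refine par_uds ((l'.pull r).im p B hB) (emF hvq a.he)
    (fun k (ω : (R.F k).Ω) i => Ex k (r.π k ω).1 (Sum.inl i)) N
    (fun k (ω : (R.F k).Ω) i => c k (r.π k ω) (e00 hvq (Sum.inl i))) (r.sub a.subN)
    (Eventually.of_forall fun k ω _ i => ?_) ?_ h0 hxy h1
  · exact (a.par k (r.π k ω) (e00 hvq (Sum.inl i))).trans (a.eP k (r.π k ω) i)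
  · filter_upwards [a.msc, hE] with k hk hk2 ω ω' h2 h3 h4 h5
    have b2 : (R.F k).μ ω ≠ 0 := FSp.im_supp (p.fp k) (B k) ω h2
    have b3 : (R.F k).μ ω' ≠ 0 := FSp.im_supp (p.fp k) (B k) ω' h3
    have a2 := r.supp k ω b2
    have a3 := r.supp k ω' b3
    have h4' : ((rsp S q).F k).Z (r.π k ω) (r.π k ω') := (r.hZ k ω ω' b2 b3).mp h4
    have h6 : La k (r.π k ω) (r.π k ω') := by
      rw [← a.eLa]
      exact h5
    have h7 := hk _ _ a2 a3 h4' h6
    have h8 : V k ((rpj S q).π k (r.π k ω)) ((rpj S q).π k (r.π k ω')) := a.le k h6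
    have h9 := hk2 _ _ ((rpj S q).supp k _ a2) ((rpj S q).supp k _ a3) (((rpj S q).hZ k _ _ a2 a3).mp h4') h8
    constructor
    · funext i
      exact congrFun h7 _
    · funext i
      show Ex k ((rpj S q).π k (r.π k ω)) (Sum.inl i) = Ex k ((rpj S q).π k (r.π k ω')) (Sum.inl i)
      rw [h9]

end

/-- **[UDT]** the systems of `sub_fam` with adapted leaves have `v` unit directions -/
theorem ud_fam {κ : Type} {Q : S.VV M} {v n g : ℕ} (q : κ → ℕ) (e : ∀ j, Fin (q j) ↪ Fin n)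
    (l : ∀ j, Leaf (rsp S (q j)) ((rpj S (q j)).vv Q) (Pool.Agent.Helper84.MT.lin g)) (j : κ)
    {hvq : v + q j = M} {L : ℕ} {V : ∀ k, Setoid (S.F k).Ω}
    {Ex : ∀ k, (S.F k).Ω → (Fin v ⊕ Fin (q j) ≃ Fin M)} {f : ∀ k, (S.F k).Ω → Fin (q j) → MvPolynomial (Fin M) ℝ}
    {w : ∀ k, (S.F k).Ω → Fin (q j) → ℝ} {U : S.VV (q j)} {La : ∀ k, Setoid ((rsp S (q j)).F k).Ω}
    {P : (rsp S (q j)).VV M} {u : (rsp S (q j)).VV (q j)} {N : ℕ → ℝ} {c : ∀ k, ((rsp S (q j)).F k).Ω → Fin M → ℤ}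
    {β : ∀ k, ((rsp S (q j)).F k).Ω → Fin L} {A : ∀ k, ((rsp S (q j)).F k).Ω → Prop}
    (a : ALeaf hvq V Q Ex f w U g L La P u N c β A (l j))
    (hE : ∀ᶠ k in UF, ∀ ω ω', (S.F k).μ ω ≠ 0 → (S.F k).μ ω' ≠ 0 → (S.F k).Z ω ω' → V k ω ω' → Ex k ω = Ex k ω') :
    Pool.Agent.Helper29.MX.Ud v (⟨(rpj S n).vv Q, fun j => (l j).pull (rem S (e j))⟩ :
      MSys (rsp S n) M (Pool.Agent.Helper84.MT.lin g) κ) j := by
  intro T p B hB x y h0 hxy h1
  exact adl_ud a hE (rem S (e j)) p B hB h0 hxy h1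

end

end Pool.Agent.Helper80.SUB
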