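import Pool.Agent.Helper80.SUB.Mem
import Pool.Agent.Helper87.NJ.St

/-! NSLJ: row [MEM] of helper87. -/

set_option autoImplicit false

namespace Pool.Agent.Helper80.SUB

open Pool.Agent.Helper87.NJ

theorem row_mem : ROW_MEM := by
  intro N v q D g r A hA hvq hD hr S T s p V Ex f w hs hV hx
  exact mem hA.sub hs hr p hvq hD V hV.ni Ex f w hx

end Pool.Agent.Helper80.SUB
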