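import Pool.Agent.Helper80.SUB.Def
import Pool.Agent.Helper75.CC.Def

/-! The classes `CL k` and `CC k` are closed under auxiliary systems: the finer leaf of the type of the data together with
the independent information. -/

set_option autoImplicit false

namespace Pool.Agent.Helper80.SUB

open Finset Filter Topology Pool.Agent.Helper69.RK Pool.Agent.Helper31.EC Pool.Agent.Helper31.EC.Sp
open Pool.Agent.Helper40.EL Pool.Agent.Helper3.LF Pool.Agent.Helper84.MT Pool.Agent.Helper36.AM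
open Pool.Agent.Helper38.NSL
open Pool.Agent.Helper75.CC (SL sw tl Dt Dl CC CL)

noncomputable section

variable {R S T : Sp} {M : ℕ} {E E' E'' : ℕ → ℕ} {ι κ κ' : Type}

/-- the cells of level 0 have no information -/
theorem nul_cell0 {m : ℕ} (y : S.VV m) : Nul S (fun k => H (fc (Setoid.ker (y.cellv 0 k)) : FL (S.F k))) := by
  have e1 : S.rt (y.bdd 0).toInf.1 S.tr = fun k => H (fc (Setoid.ker (y.cellv 0 k)) : FL (S.F k)) / (S.F k).n := by
    funext k
    rw [H_fc]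
    show (S.F k).e (Setoid.ker (y.cellv 0 k)) (⊤ ⊓ (S.F k).Z) / (S.F k).n = _
    rw [top_inf_eq]
  have h1 := ul_tendsto (UB_rt (S := S) (y.bdd 0).toInf S.tr)
  rw [e1] at h1
  have h2 : ul (fun k => H (fc (Setoid.ker (y.cellv 0 k)) : FL (S.F k)) / (S.F k).n) ≤ 0 := by
    rw [← e1, ← H_cl]
    have e0 : y.dg 0 = cl (y.bdd 0).toInf := io_eq (y.bdd 0)
    rw [← e0]
    have := y.H_dg_le le_rfl
    rwa [mul_zero] at this
  have h3 : 0 ≤ ul (fun k => H (fc (Setoid.ker (y.cellv 0 k)) : FL (S.F k)) / (S.F k).n) :=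
    ge_of_tendsto' h1 fun k => div_nonneg (H_nonneg _) (S.F k).pos.le
  rw [le_antisymm h2 h3] at h1
  exact h1

theorem PLe_inf0 (L A : ∀ k, Setoid (S.F k).Ω) (hA : Nul S (fun k => H (fc (A k) : FL (S.F k)))) :
    PLe (S := S) (fun k => fc (L k ⊓ A k)) (fun k => fc (L k)) := by
  refine hA.of_le (Eventually.of_forall fun k => h_nonneg _ _) (Eventually.of_forall fun k => ?_)
  show h (fc (L k ⊓ A k)) (fc (L k)) ≤ H (fc (A k))
  rw [fc_inf]
  have h1 : h (fc (L k) ⊔ fc (A k)) (fc (L k)) ≤ h (fc (L k)) (fc (L k)) + h (fc (A k)) (fc (L k)) := h_sup_le _ _ _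
  have h2 : h (fc (L k)) (fc (L k)) = 0 := h_self _
  have h3 : h (fc (A k)) (fc (L k)) ≤ h (fc (A k)) ⊥ := h_anti bot_le
  rw [h_bot] at h3
  linarith

/-- FINER LEAVES of auxiliary systems -/
theorem SL_sub {s : MSys S M E ι} {i : ι} {t : Fin M} {L : ∀ n, Setoid (S.F n).Ω} (hs : SL s i t L) {p : Pj T S}
    {s' : MSys T M E' κ} (H : Sub s p s') : ∃ (j : κ) (Z : ∀ n, Setoid (T.F n).Ω),
      SL s' j t (fun n => Setoid.comap (p.π n) (L n) ⊓ Z n) := by
  obtain ⟨Q', lf'⟩ := s'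
  have hQ : Q' = p.vv s.Q := H.pt
  subst hQ
  obtain ⟨j, Z₀, hZ, hW⟩ := H.tp i
  have hZ₀ : ∀ k, ∃ A : Setoid (T.F k).Ω, fc A = Z₀ k := by
    intro k
    induction Z₀ k using fc_ind with
    | _ A => exact ⟨A, rfl⟩
  choose Z hZe using hZ₀
  have hp := hs.pull p
  have hwin : ∀ b : ℝ, 0 ≤ b → b ≤ 1 → PLe (((s.lf i).win b).pull p)
      (sw (s.pull p).Q t (fun n => Setoid.comap (p.π n) (L n)) b) := by
    intro b h0 h1
    rw [← win_pull]
    exact hp.win b h0 h1
  refine ⟨j, Z, ⟨fun b h0 h1 => ?_, ?_⟩⟩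
  · refine (hW b h0 h1).trans (PLe.sup_le ((hwin b h0 h1).trans (PLe_of_le fun n => ?_)) (PLe_of_le fun n => ?_))
    · exact fc_mono (inf_le_inf_right _ inf_le_left)
    · rw [← hZe n]
      exact fc_mono (inf_le_left.trans inf_le_right)
  · have h1 : NI Z₀ (ptop p) (fun n => fc (Setoid.comap (p.π n) (L n))) := by
      refine NI_fin' hZ ((hwin 0 le_rfl zero_le_one).trans ?_) (PLe_of_le fun n => pull_le_ptop p (fun n => fc (L n)) n)
      exact PLe_inf0 (S := T) _ _ (nul_cell0 (((s.pull p).Q).co t))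
    have h2 : NI Z₀ (fun n => fc (Setoid.ker (((s.pull p).Q.co t).cellv 1 n))) (fun n => fc (Setoid.comap (p.π n) (L n))) := by
      refine h1.mono_right ((PLe_of_le fun n => ?_).trans (PLe_left _ _))
      have e : fc (Setoid.ker (((s.pull p).Q.co t).cellv 1 n)) =
          Part.pull p (fun n => fc (Setoid.ker ((s.Q.co t).cellv 1 n))) n := by
        show fc (Setoid.ker ((p.vv (s.Q.co t)).cellv 1 n)) = _
        rw [vv_cellv]
        rfl
      exact (le_of_eq e).trans (pull_le_ptop p (fun n => fc (Setoid.ker ((s.Q.co t).cellv 1 n))) n)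
    have h3 := hp.real.sub h2
    rw [sub_zero] at h3
    refine h3.congr fun n => ?_
    rw [← sub_div]
    have e : ∀ x z l : FL (T.F n), h x l - I z x l = h x (l ⊔ z) := by
      intro x z l
      rw [I_comm, I_eq, sup_comm l z]
      ring
    have e2 := e (fc (Setoid.ker (((s.pull p).Q.co t).cellv 1 n))) (Z₀ n) (fc (Setoid.comap (p.π n) (L n)))
    show _ = h (fc (Setoid.ker (((s.pull p).Q.co t).cellv 1 n))) (fc (Setoid.comap (p.π n) (L n) ⊓ Z n)) / (T.F n).n
    rw [fc_inf, hZe n]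
    exact congrArg (· / (T.F n).n) e2

/-- THE DATA of auxiliary systems -/
theorem Dt_sub {k : ℕ} {t : Fin M} {w : Fin M → ℝ} {W : ℝ} {s : MSys S M E ι} (d : Dt k t w W s) {p : Pj T S}
    {s' : MSys T M E' κ} (H : Sub s p s') : Nonempty (Dt k t w W s') := by
  obtain ⟨j, Z, hj⟩ := SL_sub d.sl H
  obtain ⟨Q', lf'⟩ := s'
  have hQ : Q' = p.vv s.Q := H.pt
  subst hQ
  exact ⟨{
    i := j
    L := fun n => Setoid.comap (p.π n) (d.L n) ⊓ Z n
    W0 := (d.pull p).W0
    a := (d.pull p).a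
    Φ := (d.pull p).Φ
    sl := hj
    fa := by
      filter_upwards [(d.pull p).fa] with n hn ω ω' h1 h2 h3 h4
      exact hn ω ω' h1 h2 h3 h4.1
    ba := (d.pull p).ba
    nW := (d.pull p).nW
    fΦ := (d.pull p).fΦ
    wd := (d.pull p).wd
    bΦ := (d.pull p).bΦ
    nd := (d.pull p).nd
    eq := (d.pull p).eq }⟩

theorem Dl_sub {k : ℕ} {t u : Fin M} {s : MSys S M E ι} (d : Dl k t u s) (hu : u ≠ t) {p : Pj T S}
    {s' : MSys T M E' κ} (H : Sub s p s') : Nonempty (Dl k t u s') := by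
  obtain ⟨j, Z, hj⟩ := SL_sub d.sl H
  obtain ⟨Q', lf'⟩ := s'
  have hQ : Q' = p.vv s.Q := H.pt
  subst hQ
  exact ⟨{
    i := j
    L := fun n => Setoid.comap (p.π n) (d.L n) ⊓ Z n
    a := (d.pull hu p).a
    sl := hj
    fa := by
      filter_upwards [(d.pull hu p).fa] with n hn ω ω' h1 h2 h3 h4
      exact hn ω ω' h1 h2 h3 h4.1
    ba := (d.pull hu p).ba
    eq := (d.pull hu p).eq }⟩

/-- `CC k` is closed under auxiliary systems -/
theorem subCl_CC (M k : ℕ) : SubCl (CC M k) := by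
  rintro S g r s ⟨t, W, ht, ⟨d⟩⟩ T p g' r' s' H
  exact ⟨t, W, ht, Dt_sub d H⟩

/-- `CL k` is closed under auxiliary systems -/
theorem subCl_CL (M k : ℕ) : SubCl (CL M k) := by
  rintro S g r s ⟨t, u, ht, hu, ⟨d⟩⟩ T p g' r' s' H
  exact ⟨t, u, ht, hu, Dl_sub d (fun h => by rw [h, ht] at hu; exact zero_ne_one hu) H⟩

end

end Pool.Agent.Helper80.SUB
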