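import Pool.Agent.Helper37.DK2.Lin
import Pool.Agent.Helper95.LF.Det

/-! NORMALIZATION of admissible families of functionals: orthonormal families with the same span. -/

set_option autoImplicit false

namespace Pool.Agent.Helper80.SUB

open Finset Matrix Pool.Agent.Helper95.LF Pool.Agent.Helper37.DK2

noncomputable section

variable {γ β : Type} [Fintype γ] [Fintype β]

theorem row_sq [DecidableEq γ] {ν : Matrix γ β ℝ} (h : ν * νᵀ = 1) (b : γ → ℝ) : (b ᵥ* ν) ⬝ᵥ (b ᵥ* ν) = b ⬝ᵥ b := by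
  have e1 : b ⬝ᵥ ((ν * νᵀ) *ᵥ b) = (b ᵥ* ν) ⬝ᵥ (b ᵥ* ν) := by
    rw [Matrix.dotProduct_mulVec, ← Matrix.vecMul_vecMul, ← Matrix.dotProduct_mulVec]
    congr 1
    exact Matrix.mulVec_transpose _ _
  rw [← e1, h, Matrix.one_mulVec]

/-- an orthonormal basis of the span of the rows -/
theorem exists_orn (ν : Matrix γ β ℝ) (h : Adm ν) : ∃ B : Matrix γ γ ℝ,
    (∀ b : γ → ℝ, (b ᵥ* (B * ν)) ⬝ᵥ (b ᵥ* (B * ν)) = b ⬝ᵥ b) ∧
    ∀ c, (fun j => (B * ν) c j) ⬝ᵥ (fun j => (B * ν) c j) = 1 := by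
  classical
  have hG : PdM (ν * νᵀ) := by
    constructor
    · show (ν * νᵀ)ᵀ = ν * νᵀ
      rw [Matrix.transpose_mul, Matrix.transpose_transpose]
    · intro x hx
      have e1 : x ⬝ᵥ ((ν * νᵀ) *ᵥ x) = (x ᵥ* ν) ⬝ᵥ (x ᵥ* ν) := by
        rw [Matrix.dotProduct_mulVec, ← Matrix.vecMul_vecMul, ← Matrix.dotProduct_mulVec]
        congr 1
        exact Matrix.mulVec_transpose _ _
      rw [e1]
      refine lt_of_lt_of_le ?_ (h x)
      exact lt_of_le_of_ne (dps_nonneg x) fun h0 => hx (dps_zero h0.symm)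
  obtain ⟨C, hC, hd⟩ := exists_factor _ hG
  have hu : IsUnit C.det := isUnit_iff_ne_zero.mpr hd
  have hut : IsUnit (Cᵀ).det := by rw [Matrix.det_transpose]; exact hu
  have key : ((Cᵀ)⁻¹ * ν) * ((Cᵀ)⁻¹ * ν)ᵀ = 1 := by
    rw [Matrix.transpose_mul]
    have e1 : (Cᵀ)⁻¹ * ν * (νᵀ * ((Cᵀ)⁻¹)ᵀ) = (Cᵀ)⁻¹ * (ν * νᵀ) * ((Cᵀ)⁻¹)ᵀ := by
      simp only [Matrix.mul_assoc]
    rw [e1, hC, ← Matrix.mul_assoc, Matrix.nonsing_inv_mul _ hut, Matrix.one_mul, Matrix.transpose_nonsing_inv,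
      Matrix.transpose_transpose, Matrix.mul_nonsing_inv _ hu]
  refine ⟨(Cᵀ)⁻¹, row_sq key, fun c => ?_⟩
  have e1 := congrFun (congrFun key c) c
  rw [Matrix.mul_apply, Matrix.one_apply_eq] at e1
  exact e1

/-- the normalization -/
def orn (ν : Matrix γ β ℝ) : Matrix γ β ℝ := by
  classical exact if h : Adm ν then (exists_orn ν h).choose * ν else ν

theorem orn_spec {ν : Matrix γ β ℝ} (h : Adm ν) : ∃ B : Matrix γ γ ℝ, orn ν = B * ν ∧
    (∀ b : γ → ℝ, (b ᵥ* orn ν) ⬝ᵥ (b ᵥ* orn ν) = b ⬝ᵥ b) ∧ ∀ c, (fun j => orn ν c j) ⬝ᵥ (fun j => orn ν c j) = 1 := by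
  refine ⟨(exists_orn ν h).choose, ?_, ?_⟩
  · unfold orn
    rw [dif_pos h]
  · have h1 := (exists_orn ν h).choose_spec
    unfold orn
    rw [dif_pos h]
    exact h1

theorem orn_adm {ν : Matrix γ β ℝ} (h : Adm ν) : Adm (orn ν) := by
  obtain ⟨B, _, h2, _⟩ := orn_spec h
  exact fun b => (h2 b).ge

theorem dps_entry {κ : Type} [Fintype κ] {b : κ → ℝ} (h : b ⬝ᵥ b ≤ 1) (i : κ) : |b i| ≤ 1 := by
  have h2 : b i * b i ≤ b ⬝ᵥ b :=
    Finset.single_le_sum (f := fun i => b i * b i) (fun i _ => mul_self_nonneg _) (Finset.mem_univ i)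
  exact abs_le_one_iff_mul_self_le_one.mpr (h2.trans h)

/-- the entries are at most one, and the rows are bounded combinations of the rows -/
theorem orn_bd {ν : Matrix γ β ℝ} (h : Adm ν) : ∃ B : Matrix γ γ ℝ, orn ν = B * ν ∧ (∀ c d, |B c d| ≤ 1) ∧
    ∀ c j, |orn ν c j| ≤ 1 := by
  obtain ⟨B, h1, _, hrow⟩ := orn_spec h
  refine ⟨B, h1, fun c d => ?_, fun c j => dps_entry (hrow c).le j⟩
  have e2 : (B c) ᵥ* ν = fun j => orn ν c j := by
    funext j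
    rw [h1]
    rfl
  have h3 := h (B c)
  rw [e2, hrow c] at h3
  exact dps_entry h3 d

end

end Pool.Agent.Helper80.SUB
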