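import Pool.Agent.Helper80.SUB.Typ
import Pool.Agent.Helper80.SUB.Cc
import Pool.Agent.Helper80.SUB.Nrm
import Pool.Agent.Helper37.DK2.Nst
import Pool.Agent.Helper37.DK2.Clo
import Pool.Agent.Helper7.GZ.Row

/-! NON CONCENTRATION OF TANGENTS is closed under auxiliary systems, with the same constant, for every condition `R` of the
space. -/

set_option autoImplicit false

namespace Pool.Agent.Helper80.SUB

open Finset Filter Topology Matrix Pool.Agent.Helper69.RK Pool.Agent.Helper31.EC Pool.Agent.Helper31.EC.Sp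
open Pool.Agent.Helper40.EL Pool.Agent.Helper89.LX Pool.Agent.Helper3.LF Pool.Agent.Helper84.MT
open Pool.Agent.Helper49.MD Pool.Agent.Helper36.AM Pool.Agent.Helper37.DK2
open Pool.Agent.Helper38.NSL

noncomputable section

variable {S T : Sp} {M : ℕ} {E E' : ℕ → ℕ} {ι κ : Type}

/-- fullness given an information independent given the window 0 -/
theorem full_sup {Q : S.VV M} (l : Leaf S Q E) (p : Pj T S) {Z : Part T}
    (hZ : NI Z (ptop p) ((l.win 0).pull p)) :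
    Tendsto (fun k => h (fc (Setoid.ker ((l.pull p).Y.cellv 1 k))) (fc ((l.pull p).La k) ⊔ Z k) / (T.F k).n) UF
      (𝓝 (l.pull p).e) := by
  have h1 : NI Z (ptop p) (fun n => fc ((l.pull p).La n)) := by
    refine NI_fin' hZ ?_ (PLe_of_le fun k => pull_le_ptop p (fun n => fc (l.La n)) k)
    rw [← win_pull]
    exact PLe_inf0 (S := T) _ _ (nul_cell0 (l.pull p).Y)
  have h2 : NI Z (fun n => fc (Setoid.ker ((l.pull p).Y.cellv 1 n))) (fun n => fc ((l.pull p).La n)) := by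
    refine h1.mono_right ((PLe_of_le fun n => ?_).trans (PLe_left _ _))
    have e : fc (Setoid.ker ((l.pull p).Y.cellv 1 n)) = Part.pull p (fun n => fc (Setoid.ker (l.Y.cellv 1 n))) n := by
      show fc (Setoid.ker ((p.vv l.Y).cellv 1 n)) = _
      rw [vv_cellv]
      rfl
    exact (le_of_eq e).trans (pull_le_ptop p (fun n => fc (Setoid.ker (l.Y.cellv 1 n))) n)
  have h3 := (l.pull p).full.sub h2
  rw [sub_zero] at h3
  refine h3.congr fun n => ?_
  rw [← sub_div]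
  have e : ∀ x z l : FL (T.F n), h x l - I z x l = h x (l ⊔ z) := by
    intro x z l
    rw [I_comm, I_eq, sup_comm l z]
    ring
  exact congrArg (· / (T.F n).n) (e (fc (Setoid.ker ((l.pull p).Y.cellv 1 n))) (Z n) (fc ((l.pull p).La n)))

/-- the tangents of the types of `s` are tame combinations of the tangents of the types of `s'`, typically -/
theorem Sub.good [Finite ι] {s : MSys S M E ι} {p : Pj T S} {lf' : κ → Leaf T (p.vv s.Q) E'}
    (H : Sub s p ⟨p.vv s.Q, lf'⟩) : ∃ j : ι → κ, ∀ ε : ℝ, 0 < ε → ε ≤ 1 / 2 →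
      Typ (S := T) (fun k ω => ∀ i, GoodT ((s.lf i).pull p) (lf' (j i)) ε k ω) := by
  choose j Z hZ hW using H.tp
  refine ⟨j, fun ε h0 h1 => ?_⟩
  apply Pool.Agent.Helper7.GZ.Typ_all
  intro i
  refine tan_typ _ _ (Z i) (full_sup (s.lf i) p (hZ i)) ?_ ε h0 h1
  rw [win_pull]
  exact hW i (1 / 2) (by norm_num) (by norm_num)

/-- NON CONCENTRATION of auxiliary systems, for any condition -/
theorem NCf_sub [Finite ι] {s : MSys S M E ι} {p : Pj T S} {s' : MSys T M E' κ} (H : Sub s p s') {γ : Type}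
    [Fintype γ] (R : ∀ k, Setoid (S.F k).Ω) {h₀ : ℝ} (h0 : 0 < h₀)
    (hN : ∀ δ : ℝ, 0 < δ → ∀ᶠ k in UF, NCf (S.F k) (R k) γ (mtan (ob s k)) h₀ δ) :
    ∀ δ : ℝ, 0 < δ → ∀ᶠ k in UF, NCf (T.F k) (Setoid.comap (p.π k) (R k)) γ (mtan (ob s' k)) h₀ δ := by
  obtain ⟨Q', lf'⟩ := s'
  have hQ : Q' = p.vv s.Q := H.pt
  subst hQ
  intro δ hδ
  obtain ⟨j, hj⟩ := H.good
  set κ₀ : ℝ := min (δ / 2) (δ ^ 2 / 6) with hκ₀
  have hk0 : 0 < κ₀ := lt_min (by positivity) (by positivity)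
  have hk1 : κ₀ ≤ δ / 2 := min_le_left _ _
  have hk2 : κ₀ ≤ δ ^ 2 / 6 := min_le_right _ _
  set ε : ℝ := min (κ₀ / 2) (1 / 2) with hε
  have he0 : 0 < ε := lt_min (by positivity) (by norm_num)
  have he1 : ε ≤ 1 / 2 := min_le_right _ _
  have he2 : ε ≤ κ₀ / 2 := min_le_left _ _
  have hG := hj ε he0 he1
  have hcst := (T.Sub_const (K := (Fintype.card γ : ℝ) + 1) (by positivity)).eventually_le
    (show 0 < κ₀ / 2 by positivity)
  filter_upwards [hN (δ / 3) (by positivity), hG.eventually (gt_mem_nhds (show (0 : ℝ) < δ / 3 by positivity)), hcst]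
    with k h1 h2 h3
  have h4 : NCf (T.F k) (Setoid.comap (p.π k) (R k)) γ (fun ω => mtan (ob s k) (p.π k ω)) h₀ (δ / 3) :=
    NCf.pull (p.fp k) (p.hn k) (fun ω ω' _ _ => Iff.rfl) h0 (by positivity) h1
  refine NCf.red (κ := κ₀) (δ'' := δ / 3) h0 hk0 hk1 (by linarith) ?_
    (fun ω => ¬ ∀ i, GoodT ((s.lf i).pull p) (lf' (j i)) ε k ω) h2.le orn (fun ν => orn_adm) ?_ h4
  · have h5 : 2 * κ₀ / δ ≤ δ / 3 := by
      rw [div_le_iff₀ hδ]
      nlinarith
    linarith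
  · intro ω hω hB ν hν e he1' he2' ht
    rw [not_not] at hB
    rintro ⟨i, a⟩ c
    have hn := (T.F k).pos
    obtain ⟨B, hB1, hB2, hB3⟩ := orn_bd hν
    set r : ℝ := 2 ^ (-(e * (T.F k).n)) with hr
    have hr0 : 0 < r := by positivity
    have h5 : ∀ b, |∑ m, orn ν c m * tng (lf' (j i)) k ω b m| ≤ (Fintype.card γ : ℝ) * r := by
      intro b
      have e1 : ∑ m, orn ν c m * tng (lf' (j i)) k ω b m = ∑ d, B c d * (ν *ᵥ mtan (ob ⟨p.vv s.Q, lf'⟩ k) ω ⟨j i, b⟩) d := by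
        have e2 : (orn ν *ᵥ mtan (ob ⟨p.vv s.Q, lf'⟩ k) ω ⟨j i, b⟩) c =
            (B *ᵥ (ν *ᵥ mtan (ob ⟨p.vv s.Q, lf'⟩ k) ω ⟨j i, b⟩)) c := by
          rw [hB1, Matrix.mulVec_mulVec]
        exact e2
      rw [e1]
      refine (Finset.abs_sum_le_sum_abs _ _).trans ?_
      have h6 : ∀ d ∈ (Finset.univ : Finset γ), |B c d * (ν *ᵥ mtan (ob ⟨p.vv s.Q, lf'⟩ k) ω ⟨j i, b⟩) d| ≤ r := by
        intro d _
        rw [abs_mul]
        have h7 := mul_le_mul (hB2 c d) (ht ⟨j i, b⟩ d) (abs_nonneg _) zero_le_one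
        rwa [one_mul] at h7
      refine (Finset.sum_le_sum h6).trans ?_
      rw [Finset.sum_const, Finset.card_univ, nsmul_eq_mul]
    have h6 := hB i (orn ν c) ((Fintype.card γ : ℝ) * r) (by positivity) (hB3 c) h5 a
    have h7 : |∑ m, orn ν c m * tng ((s.lf i).pull p) k ω a m| = |(orn ν *ᵥ mtan (ob s k) (p.π k ω) ⟨i, a⟩) c| := rfl
    show |(orn ν *ᵥ mtan (ob s k) (p.π k ω) ⟨i, a⟩) c| ≤ _
    rw [← h7]
    refine h6.trans ?_
    have h8 : T.dl (1 / 2) k ≤ r := by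
      show (2 : ℝ) ^ (-(1 / 2 * (T.F k).n)) ≤ _
      rw [hr]
      exact Real.rpow_le_rpow_of_exponent_le (by norm_num) (by nlinarith)
    have h9 : (2 : ℝ) ^ (ε * (T.F k).n) * ((Fintype.card γ : ℝ) * r + T.dl (1 / 2) k) ≤
        2 ^ (ε * (T.F k).n) * (2 ^ (κ₀ / 2 * (T.F k).n) * r) := by
      apply mul_le_mul_of_nonneg_left _ (by positivity)
      nlinarith
    refine h9.trans ?_
    rw [hr, ← Real.rpow_add (by norm_num), ← Real.rpow_add (by norm_num)]
    apply Real.rpow_le_rpow_of_exponent_le (by norm_num)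
    nlinarith

/-- the class `NC k h` is closed under auxiliary systems -/
theorem NC_sub [Finite ι] {k : ℕ} {h₀ : ℝ} (h0 : 0 < h₀) {s : MSys S M E ι} {p : Pj T S} {s' : MSys T M E' κ}
    (H : Sub s p s') (hN : NC k h₀ s) : NC k h₀ s' := by
  have h1 := NCf_sub H (fun n => cQ1 (S.F n) (ob s n)) h0 hN
  intro δ hδ
  filter_upwards [h1 δ hδ] with n hn
  have e : cQ1 (T.F n) (ob s' n) = Setoid.comap (p.π n) (cQ1 (S.F n) (ob s n)) := by
    obtain ⟨Q', lf'⟩ := s'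
    have hQ : Q' = p.vv s.Q := H.pt
    subst hQ
    show Setoid.ker ((p.vv s.Q).cellv 1 n) = _
    rw [vv_cellv]
    rfl
  show NCf (T.F n) (cQ1 (T.F n) (ob s' n)) (Fin (M + 1 - k)) (mtan (ob s' n)) h₀ δ
  rw [e]
  exact hn

/-- THE CLASSES `DKN`, `DKU` are closed under auxiliary systems -/
theorem subCl_DKN (M k m : ℕ) : SubCl (DKN M k m) := fun _ _ _ _ hs _ _ _ _ _ H =>
  NC_sub (by positivity) H hs

theorem subCl_DKU (M k : ℕ) : SubCl (DKU M k) := fun _ _ _ _ ⟨m, hm⟩ _ _ _ _ _ H =>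
  ⟨m, NC_sub (by positivity) H hm⟩

end

end Pool.Agent.Helper80.SUB
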