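import Pool.Agent.Helper80.SUB.Udt
import Pool.Agent.Helper80.SUB.Cc

/-! [MEM] of NSLJ: rows over labels which are independent given the windows `0` of the types give an auxiliary system with
`v` unit directions; its windows `0` are known to the labels and the fresh digits. -/

set_option autoImplicit false

namespace Pool.Agent.Helper80.SUB

open Finset Filter Topology Matrix Pool.Agent.Helper69.RK Pool.Agent.Helper31.EC Pool.Agent.Helper31.EC.Sp
open Pool.Agent.Helper40.EL Pool.Agent.Helper84.MT Pool.Agent.Helper89.LX Pool.Agent.Helper36.AM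
open Pool.Agent.Helper38.NSL
open Pool.Agent.Helper76.ADP
open Pool.Agent.Helper76.THK (e00 LR)

noncomputable section

variable {S T : Sp} {M v q D : ℕ}

theorem gA_pos (M D : ℕ) : 1 ≤ gA M D := by
  have h1 := Pool.Agent.Helper85.OA.c0_le (e := 0) (m := M) (M + M) (LR M D) (Nat.zero_le _)
  have h2 : 1 ≤ Pool.Agent.Helper85.OA.c0 0 (M + M) (LR M D) := by
    unfold Pool.Agent.Helper85.OA.c0
    omega
  unfold gA
  omega

/-- the coarse data of the window `0` -/
theorem ple_aB {V : ∀ k, Setoid (S.F k).Ω} (X : S.VV v) (U : S.VV q) {w : ∀ k, (S.F k).Ω → Fin q → ℝ}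
    (hw : ∀ᶠ k in UF, ∀ ω, (S.F k).μ ω ≠ 0 → ∀ j, 0 ≤ w k ω j ∧ w k ω j ≤ 1) :
    PLe (S := rsp S q) (fun k => fc (aB V X U w 0 k)) (fun k => fc ((rpj S q).pb V k ⊓ rfr S q k)) := by
  have h1 : PLe (S := S) (fun k => fc (Setoid.ker (acel U w 0 k))) (fun k => fc (Setoid.ker (U.cellv 0 k))) := by
    refine ple_evl ?_
    filter_upwards [hw] with k hk
    refine fc_le fun ω ω' a a' _ h => ?_
    show acel U w 0 k ω = acel U w 0 k ω'
    have e1 : ∀ ω, (S.F k).μ ω ≠ 0 → acel U w 0 k ω = U.cellv 0 k ω := by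
      intro ω hω
      funext j
      show ⌊U.v k ω j / S.dl (min 0 (1 - w k ω j)) k⌋ = ⌊U.v k ω j / S.dl 0 k⌋
      have h2 := (hk ω hω j).2
      rw [min_eq_left (by linarith)]
    rw [e1 ω a, e1 ω' a']
    exact h
  have h2 : PLe (S := rsp S q) (fun k => fc ((rpj S q).pb (fun k => Setoid.ker (X.cellv 0 k)) k)) (fun _ => ⊥) := by
    have a1 : PLe (S := S) (fun k => fc (Setoid.ker (X.cellv 0 k))) (fun _ => ⊥) := by
      have a2 := nul_cell0 X
      refine a2.of_le (Eventually.of_forall fun _ => h_nonneg _ _) (Eventually.of_forall fun k => ?_)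
      exact h_le_H _ _
    exact (PLe_pull a1 (rpj S q)).trans (PLe_of_le fun k => le_of_eq ((rpj S q).fp k).map_bot)
  have h3 : PLe (S := rsp S q) (fun k => fc ((rpj S q).pb (fun k => Setoid.ker (acel U w 0 k)) k)) (fun _ => ⊥) := by
    have a1 : PLe (S := S) (fun k => fc (Setoid.ker (acel U w 0 k))) (fun _ => ⊥) := by
      have a2 := nul_cell0 U
      refine h1.trans (a2.of_le (Eventually.of_forall fun _ => h_nonneg _ _) (Eventually.of_forall fun k => ?_))
      exact h_le_H _ _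
    exact (PLe_pull a1 (rpj S q)).trans (PLe_of_le fun k => le_of_eq ((rpj S q).fp k).map_bot)
  have e1 : (fun k => fc (aB V X U w 0 k)) = Pjn (Pjn (fun k => fc ((rpj S q).pb V k ⊓ rfr S q k))
      (fun k => fc ((rpj S q).pb (fun k => Setoid.ker (X.cellv 0 k)) k)))
        (fun k => fc ((rpj S q).pb (fun k => Setoid.ker (acel U w 0 k)) k)) := by
    funext k
    show fc ((rpj S q).pb V k ⊓ rfr S q k ⊓ (rpj S q).pb (fun k => Setoid.ker (X.cellv 0 k)) k ⊓
      (rpj S q).pb (fun k => Setoid.ker (acel U w 0 k)) k) = _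
    rw [fc_inf, fc_inf]
    rfl
  rw [e1]
  exact PLe.sup_le (PLe.sup_le (PLe.refl _) (h2.trans (PLe_of_le fun _ => bot_le)))
    (h3.trans (PLe_of_le fun _ => bot_le))

/-- **[MEM]** -/
theorem mem {A : MCl M} (hA : SubCl A) {g r : ℕ} {s : MSys S M (Pool.Agent.Helper84.MT.lin g) (Fin r)}
    (hs : A S g r s) (hr : 0 < r) (p : Pj T S) (hvq : v + q = M) (hD : 1 ≤ D) (V : Fin r → ∀ k, Setoid (T.F k).Ω)
    (hV : ∀ j, NI (fun k => fc (V j k)) (ptop p) (((s.lf j).win 0).pull p))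
    (Ex : Fin r → ∀ k, (T.F k).Ω → (Fin v ⊕ Fin q ≃ Fin M))
    (f : Fin r → ∀ k, (T.F k).Ω → Fin q → MvPolynomial (Fin M) ℝ) (w : Fin r → ∀ k, (T.F k).Ω → Fin q → ℝ)
    (hx : ∀ j, RowsF (V j) (p.vv s.Q) D (Ex j) (f j) (w j)) :
    ∃ (g' : ℕ) (t : MSys (rsp T q) M (Pool.Agent.Helper84.MT.lin g') (Fin r)), 1 ≤ g' ∧
      t.Q = (rpj T q).vv (p.vv s.Q) ∧ Sub s ((rpj T q).comp p) t ∧ A (rsp T q) g' r t ∧
        Pool.Agent.Helper29.MX.Inv v t ∧
        ∀ j, PLe ((t.lf j).win 0) (fun k => fc ((rpj T q).pb (V j) k ⊓ rfr T q k)) := by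
  classical
  have h1 := fun j => adapted hvq hD (hx j)
  choose U La P u N c β B l a using h1
  have hS : Sub s ((rpj T q).comp p) (⟨(rpj T q).vv (p.vv s.Q), fun j => (l j).pull
      (rem T (Function.Embedding.refl (Fin q)))⟩ : MSys (rsp T q) M (Pool.Agent.Helper84.MT.lin (gA M D)) (Fin r)) :=
    sub_fam (κ := Fin r) (fun j => j) Function.surjective_id (fun _ => q) (fun _ => Function.Embedding.refl (Fin q)) l
      fun j => sub_adl (s.lf j) p (hV j) (hx j) (a j)
  refine ⟨gA M D, ⟨(rpj T q).vv (p.vv s.Q), fun j => (l j).pull (rem T (Function.Embedding.refl (Fin q)))⟩, gA_pos M D,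
    rfl, hS, hA _ _ _ _ hs _ _ _ _ _ hS, ⟨⟨⟨0, hr⟩⟩, fun j => ?_⟩, fun j => ?_⟩
  · exact ud_fam (κ := Fin r) (fun _ => q) (fun _ => Function.Embedding.refl (Fin q)) l j (a j) (hx j).msE
  · have e : ((l j).pull (rem T (Function.Embedding.refl (Fin q)))).win 0 = ((l j).win 0).pull
        (rem T (Function.Embedding.refl (Fin q))) := win_pull _ (l j) 0
    show PLe (((l j).pull (rem T (Function.Embedding.refl (Fin q)))).win 0) _
    rw [e]
    have h2 := PLe_pull (((a j).win 0).trans (ple_aB (aS (p.vv s.Q) (Ex j)) (U j) (hx j).w01))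
      (rem T (Function.Embedding.refl (Fin q)))
    exact h2

end

end Pool.Agent.Helper80.SUB
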