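import Pool.Agent.Helper4.VZ.Fib

/-! The number of cells of a cube which meet a thin slab. -/

set_option autoImplicit false

namespace Pool.Agent.Helper80.SUB

open Finset Pool.Agent.Helper4.VZ

noncomputable section

theorem card_Icc_floor (x y : ℝ) (hxy : x ≤ y) : ((Finset.Icc ⌊x⌋ ⌊y⌋).card : ℝ) ≤ y - x + 2 := by
  rw [Int.card_Icc]
  have h1 := Int.floor_le y
  have h2 := Int.lt_floor_add_one x
  have h3 : ⌊x⌋ ≤ ⌊y⌋ := Int.floor_le_floor hxy
  have h4 : ((⌊y⌋ + 1 - ⌊x⌋).toNat : ℤ) = ⌊y⌋ + 1 - ⌊x⌋ := Int.toNat_of_nonneg (by omega)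
  have h5 : (((⌊y⌋ + 1 - ⌊x⌋).toNat : ℤ) : ℝ) = ((⌊y⌋ + 1 - ⌊x⌋ : ℤ) : ℝ) := by rw [h4]
  rw [Int.cast_natCast] at h5
  rw [h5]
  push_cast
  linarith

/-- SLABS -/
theorem slab_card {e : ℕ} {δ r s : ℝ} (hδ : 0 < δ) (hr : 0 ≤ r) (hs : 0 ≤ s) (v : Fin e → ℝ) (a₀ : Fin e)
    (hv : ∀ a, |v a| ≤ |v a₀|) (h0 : 0 < |v a₀|) (Y : Fin e → ℝ) (T : Finset (Fin e → ℤ))
    (hT : ∀ c ∈ T, ∃ y : Fin e → ℝ, (∀ a, ⌊y a / δ⌋ = c a) ∧ (∀ a, |y a - Y a| ≤ r) ∧
      |∑ a, v a * (y a - Y a)| ≤ s) :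
    (T.card : ℝ) ≤ (4 * s / |v a₀| / δ + 2 * e + 2) * (2 * r / δ + 2) ^ (e - 1) := by
  classical
  set g : (Fin e → ℤ) → (Fin e → ℤ) := fun c => Function.update c a₀ 0 with hg
  set w : ℝ := 2 * s / |v a₀| + e * δ with hw
  have hw0 : 0 ≤ w := by positivity
  -- the fibres
  have hfib : ∀ d ∈ T.image g, (T.filter fun c => g c = d).card ≤ ⌊(2 * w) / δ⌋₊ + 2 := by
    intro d hd
    obtain ⟨c₁, hc₁, hd₁⟩ := Finset.mem_image.mp hd
    obtain ⟨y₁, h1, h2, h3⟩ := hT c₁ hc₁
    have hinj : Set.InjOn (fun c : Fin e → ℤ => c a₀) (T.filter fun c => g c = d) := by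
      intro c hc c' hc' hcc
      have e1 := (Finset.mem_filter.mp (Finset.mem_coe.mp hc)).2
      have e2 := (Finset.mem_filter.mp (Finset.mem_coe.mp hc')).2
      funext a
      by_cases ha : a = a₀
      · rw [ha]
        exact hcc
      · have e3 := congrFun (e1.trans e2.symm) a
        rw [hg] at e3
        dsimp only at e3
        rw [Function.update_of_ne ha, Function.update_of_ne ha] at e3
        exact e3
    rw [← Finset.card_image_of_injOn hinj]
    refine cells_interval δ (2 * w) (y₁ a₀ + w) hδ _ ?_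
    intro t ht
    obtain ⟨c, hc, rfl⟩ := Finset.mem_image.mp ht
    obtain ⟨hcT, hcd⟩ := Finset.mem_filter.mp hc
    obtain ⟨y, k1, k2, k3⟩ := hT c hcT
    refine ⟨y a₀, k1 a₀, ?_⟩
    -- difference in the other coordinates
    have hoth : ∀ a, a ≠ a₀ → |y a - y₁ a| ≤ δ := by
      intro a ha
      have e3 := congrFun (hcd.trans hd₁.symm) a
      rw [hg] at e3
      dsimp only at e3
      rw [Function.update_of_ne ha, Function.update_of_ne ha, ← k1 a, ← h1 a] at e3
      have f1 := Int.floor_le (y a / δ)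
      have f2 := Int.lt_floor_add_one (y a / δ)
      have f3 := Int.floor_le (y₁ a / δ)
      have f4 := Int.lt_floor_add_one (y₁ a / δ)
      rw [e3] at f1 f2
      rw [le_div_iff₀ hδ] at f1 f3
      rw [div_lt_iff₀ hδ] at f2 f4
      rw [abs_le]
      constructor <;> nlinarith
    have hsum : ∑ a, v a * (y a - Y a) - ∑ a, v a * (y₁ a - Y a) =
        v a₀ * (y a₀ - y₁ a₀) + ∑ a ∈ Finset.univ.erase a₀, v a * (y a - y₁ a) := by
      rw [← Finset.sum_sub_distrib, ← Finset.add_sum_erase _ _ (Finset.mem_univ a₀)]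
      congr 1
      · ring
      · exact Finset.sum_congr rfl fun a _ => by ring
    have herase : |∑ a ∈ Finset.univ.erase a₀, v a * (y a - y₁ a)| ≤ e * (|v a₀| * δ) := by
      refine (Finset.abs_sum_le_sum_abs _ _).trans ?_
      have h5 : ∑ a ∈ Finset.univ.erase a₀, |v a * (y a - y₁ a)| ≤ ∑ _a ∈ Finset.univ.erase a₀, |v a₀| * δ := by
        refine Finset.sum_le_sum fun a ha => ?_
        rw [abs_mul]
        exact mul_le_mul (hv a) (hoth a (Finset.ne_of_mem_erase ha)) (abs_nonneg _) (abs_nonneg _)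
      refine h5.trans ?_
      rw [Finset.sum_const, nsmul_eq_mul]
      apply mul_le_mul_of_nonneg_right _ (by positivity)
      have h6 : (Finset.univ.erase a₀).card ≤ e := by
        refine (Finset.card_erase_le).trans ?_
        rw [Finset.card_univ, Fintype.card_fin]
      exact_mod_cast h6
    have hmain : |v a₀| * |y a₀ - y₁ a₀| ≤ 2 * s + e * (|v a₀| * δ) := by
      rw [← abs_mul]
      have e4 : v a₀ * (y a₀ - y₁ a₀) = ∑ a, v a * (y a - Y a) - ∑ a, v a * (y₁ a - Y a) -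
          ∑ a ∈ Finset.univ.erase a₀, v a * (y a - y₁ a) := by rw [hsum]; ring
      rw [e4]
      have e5 := abs_sub (∑ a, v a * (y a - Y a) - ∑ a, v a * (y₁ a - Y a))
        (∑ a ∈ Finset.univ.erase a₀, v a * (y a - y₁ a))
      have e6 := abs_sub (∑ a, v a * (y a - Y a)) (∑ a, v a * (y₁ a - Y a))
      linarith
    have hfin : |y a₀ - y₁ a₀| ≤ w := by
      have e7 : |v a₀| * |y a₀ - y₁ a₀| ≤ |v a₀| * w := by
        refine hmain.trans (le_of_eq ?_)
        rw [hw]
        field_simp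
      exact le_of_mul_le_mul_left e7 h0
    rw [abs_le] at hfin
    constructor <;> linarith [hfin.1, hfin.2]
  have h1 := Finset.card_le_mul_card_image T _ hfib
  -- the image
  set Bx : Fin e → Finset ℤ := fun a => if a = a₀ then {0} else Finset.Icc ⌊(Y a - r) / δ⌋ ⌊(Y a + r) / δ⌋ with hBx
  have himg : T.image g ⊆ Fintype.piFinset Bx := by
    intro d hd
    obtain ⟨c, hc, rfl⟩ := Finset.mem_image.mp hd
    obtain ⟨y, k1, k2, _⟩ := hT c hc
    rw [Fintype.mem_piFinset]
    intro a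
    by_cases ha : a = a₀
    · rw [hBx, hg]
      dsimp only
      rw [if_pos ha, ha, Function.update_self]
      exact Finset.mem_singleton_self 0
    · rw [hBx, hg]
      dsimp only
      rw [if_neg ha, Function.update_of_ne ha, Finset.mem_Icc, ← k1 a]
      have h5 := k2 a
      rw [abs_le] at h5
      exact ⟨Int.floor_le_floor (div_le_div_of_nonneg_right (by linarith) hδ.le),
        Int.floor_le_floor (div_le_div_of_nonneg_right (by linarith) hδ.le)⟩
  have h2 : ((T.image g).card : ℝ) ≤ (2 * r / δ + 2) ^ (e - 1) := by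
    have h3 := Finset.card_le_card himg
    rw [Fintype.card_piFinset] at h3
    have h4 : (((∏ a, (Bx a).card : ℕ)) : ℝ) ≤ ∏ a : Fin e, (if a = a₀ then (1 : ℝ) else 2 * r / δ + 2) := by
      push_cast
      refine Finset.prod_le_prod (fun a _ => Nat.cast_nonneg _) fun a _ => ?_
      rw [hBx]
      dsimp only
      by_cases ha : a = a₀
      · rw [if_pos ha, if_pos ha, Finset.card_singleton, Nat.cast_one]
      · rw [if_neg ha, if_neg ha]
        refine (card_Icc_floor _ _ (div_le_div_of_nonneg_right (by linarith) hδ.le)).trans (le_of_eq ?_)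
        ring
    have h5 : ∏ a : Fin e, (if a = a₀ then (1 : ℝ) else 2 * r / δ + 2) = (2 * r / δ + 2) ^ (e - 1) := by
      rw [← Finset.mul_prod_erase Finset.univ _ (Finset.mem_univ a₀), if_pos rfl, one_mul]
      rw [Finset.prod_congr rfl fun a ha => if_neg (Finset.ne_of_mem_erase ha), Finset.prod_const,
        Finset.card_erase_of_mem (Finset.mem_univ a₀), Finset.card_univ, Fintype.card_fin]
    have h6 : ((T.image g).card : ℝ) ≤ ((∏ a, (Bx a).card : ℕ) : ℝ) := by exact_mod_cast h3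
    exact h6.trans (h4.trans (le_of_eq h5))
  have h3 : (T.card : ℝ) ≤ (((⌊(2 * w) / δ⌋₊ + 2) * (T.image g).card : ℕ) : ℝ) := by exact_mod_cast h1
  refine h3.trans ?_
  push_cast
  have h4 : ((⌊(2 * w) / δ⌋₊ : ℕ) : ℝ) ≤ (2 * w) / δ := Nat.floor_le (by positivity)
  have h5 : (2 * w) / δ = 4 * s / |v a₀| / δ + 2 * e := by
    rw [hw]
    field_simp
    ring
  have h6 := h4.trans (le_of_eq h5)
  exact mul_le_mul (by linarith) h2 (Nat.cast_nonneg _) (by positivity)

end

end Pool.Agent.Helper80.SUB
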