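import Pool.Agent.Helper80.SUB.Tay
import Pool.Agent.Helper80.SUB.Slab
import Pool.Agent.Helper4.VZ.Cg
import Pool.Agent.Helper38.NSL.Ni

/-! TWO LEAVES THROUGH THE SAME POINT. If the windows `1/2` of the leaf `l'` are known to the window `1/2` of the leaf `l`
and to an information which leaves the parameter of `l` full, then the tangents of `l` are, up to `2 ^ (-n/2)`, combinations
of the tangents of `l'` with tame coefficients: every bounded functional which is small on the tangents of `l'` is small on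
the tangents of `l`. -/

set_option autoImplicit false

namespace Pool.Agent.Helper80.SUB

open Finset Filter Topology Pool.Agent.Helper69.RK Pool.Agent.Helper31.EC Pool.Agent.Helper31.EC.Sp
open Pool.Agent.Helper40.EL Pool.Agent.Helper89.LX Pool.Agent.Helper3.LF Pool.Agent.Helper84.MT
open Pool.Agent.Helper81.AD (pd Sm chart_Sm oc)
open Pool.Agent.Helper38.NSL

noncomputable section

variable {S : Sp} {M : ℕ} {E E' : ℕ → ℕ}

theorem dl_half_sq (S : Sp) (k : ℕ) : S.dl (1 / 2) k * S.dl (1 / 2) k = S.dl 1 k := by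
  rw [← dl_add]
  norm_num

theorem dl_half_lt (S : Sp) (k : ℕ) : S.dl (1 / 2) k < 1 := by
  have hn := (S.F k).pos
  show (2 : ℝ) ^ (-(1 / 2 * (S.F k).n)) < 1
  exact Real.rpow_lt_one_of_one_lt_of_neg (by norm_num) (by linarith)

/-- the derivative of the coordinate `j` of the chart at the point -/
def tng {Q : S.VV M} (l : Leaf S Q E) (k : ℕ) (ω : (S.F k).Ω) (a : Fin l.e) (j : Fin M) : ℝ :=
  pd a (fun y => l.F k ω y j) (l.Y.v k ω)

/-- the point in one window `1/2`, to first order -/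
theorem leaf_tay {Q : S.VV M} (l : Leaf S Q E) : ∃ K : ℕ → ℝ, S.Sub K ∧ ∀ᶠ k in UF, ∀ ω ω', (S.F k).μ ω ≠ 0 →
    (S.F k).μ ω' ≠ 0 → (S.F k).Z ω ω' → (l.La k ⊓ Setoid.ker (l.Y.cellv (1 / 2) k)) ω ω' → ∀ j,
      |Q.v k ω' j - Q.v k ω j - ∑ a, tng l k ω a j * (l.Y.v k ω' a - l.Y.v k ω a)| ≤ K k * S.dl 1 k := by
  obtain ⟨K, hK, hb⟩ := chart_Sm l 2
  obtain ⟨L, hL, hp⟩ := l.pt
  refine ⟨fun k => K k * ((l.e : ℝ) + 1) ^ 2 + (L k + L k), (hK.mul (S.Sub_const (by positivity))).add (hL.add hL), ?_⟩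
  filter_upwards [hb, hp, l.fn, hK.1, hL.1] with k h1 h2 h3 hK0 hL0 ω ω' a b z r j
  have hF := h3 ω ω' a b z r.1
  have hd : 0 < S.dl (1 / 2) k := S.dl_pos _ k
  have hY : ∀ i, |l.Y.v k ω' i - l.Y.v k ω i| ≤ S.dl (1 / 2) k := fun i => by
    rw [abs_sub_comm]
    exact abs_sub_le_of_floor_eq hd (congrFun r.2 i)
  have h4 := tay_all hK0 (h1 ω a j) (y0 := l.Y.v k ω) (y := l.Y.v k ω') (fun i => by
    rw [sub_self, abs_zero]; exact zero_lt_one) (fun i => (hY i).trans_lt (dl_half_lt S k)) hY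
  have h5 := h2 ω a j
  have h6 := h2 ω' b j
  rw [← hF] at h6
  have e1 : Q.v k ω' j - Q.v k ω j - ∑ a, tng l k ω a j * (l.Y.v k ω' a - l.Y.v k ω a) =
      (Q.v k ω' j - l.F k ω (l.Y.v k ω') j) - (Q.v k ω j - l.F k ω (l.Y.v k ω) j) +
      (l.F k ω (l.Y.v k ω') j - l.F k ω (l.Y.v k ω) j -
        ∑ a, tng l k ω a j * (l.Y.v k ω' a - l.Y.v k ω a)) := by ring
  rw [e1]
  have h7 := abs_add_le ((Q.v k ω' j - l.F k ω (l.Y.v k ω') j) - (Q.v k ω j - l.F k ω (l.Y.v k ω) j))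
    (l.F k ω (l.Y.v k ω') j - l.F k ω (l.Y.v k ω) j - ∑ a, tng l k ω a j * (l.Y.v k ω' a - l.Y.v k ω a))
  have h8 := abs_sub (Q.v k ω' j - l.F k ω (l.Y.v k ω') j) (Q.v k ω j - l.F k ω (l.Y.v k ω) j)
  have h9 : |l.F k ω (l.Y.v k ω') j - l.F k ω (l.Y.v k ω) j -
      ∑ a, tng l k ω a j * (l.Y.v k ω' a - l.Y.v k ω a)| ≤ K k * ((l.e : ℝ) + 1) ^ 2 * S.dl (1 / 2) k ^ 2 := h4
  rw [sq (S.dl (1 / 2) k), dl_half_sq] at h9
  have e2 : (K k * ((l.e : ℝ) + 1) ^ 2 + (L k + L k)) * S.dl 1 k =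
      K k * ((l.e : ℝ) + 1) ^ 2 * S.dl 1 k + (L k * S.dl 1 k + L k * S.dl 1 k) := by ring
  rw [e2]
  linarith

/-- two leaves: the relation of the parameters in a common window -/
theorem two_tay {Q : S.VV M} (l : Leaf S Q E) (l' : Leaf S Q E') : ∃ K : ℕ → ℝ, S.Sub K ∧ ∀ᶠ k in UF, ∀ ω ω',
    (S.F k).μ ω ≠ 0 → (S.F k).μ ω' ≠ 0 → (S.F k).Z ω ω' → (l.La k ⊓ Setoid.ker (l.Y.cellv (1 / 2) k)) ω ω' →
    (l'.La k ⊓ Setoid.ker (l'.Y.cellv (1 / 2) k)) ω ω' → ∀ (μ : Fin M → ℝ) (R : ℝ), 0 ≤ R → (∀ j, |μ j| ≤ 1) →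
      (∀ b, |∑ j, μ j * tng l' k ω b j| ≤ R) →
        |∑ a, (∑ j, μ j * tng l k ω a j) * (l.Y.v k ω' a - l.Y.v k ω a)| ≤
          K k * (S.dl (1 / 2) k * (R + S.dl (1 / 2) k)) := by
  obtain ⟨K, hK, hb⟩ := leaf_tay l
  obtain ⟨K', hK', hb'⟩ := leaf_tay l'
  refine ⟨fun k => (l'.e : ℝ) + M * (K k + K' k), (S.Sub_const (Nat.cast_nonneg _)).add
    ((S.Sub_const (Nat.cast_nonneg _)).mul (hK.add hK')), ?_⟩
  filter_upwards [hb, hb', hK.1, hK'.1] with k h1 h2 hK0 hK0' ω ω' a b z r r' μ R hR hμ ht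
  set d := S.dl (1 / 2) k with hd
  have hd0 : 0 < d := S.dl_pos _ k
  have hδ : S.dl 1 k = d * d := (dl_half_sq S k).symm
  have hY : ∀ i, |l'.Y.v k ω' i - l'.Y.v k ω i| ≤ d := fun i => by
    rw [abs_sub_comm]
    exact abs_sub_le_of_floor_eq hd0 (congrFun r'.2 i)
  -- the contraction of the two expansions
  have e1 : ∀ (m : ℕ) (t : Fin m → Fin M → ℝ) (y : Fin m → ℝ), ∑ a, (∑ j, μ j * t a j) * y a =
      ∑ j, μ j * ∑ a, t a j * y a := by
    intro m t y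
    simp_rw [Finset.sum_mul, Finset.mul_sum]
    rw [Finset.sum_comm]
    refine Finset.sum_congr rfl fun j _ => Finset.sum_congr rfl fun a _ => by ring
  have h3 : |∑ a, (∑ j, μ j * tng l k ω a j) * (l.Y.v k ω' a - l.Y.v k ω a) -
      ∑ b, (∑ j, μ j * tng l' k ω b j) * (l'.Y.v k ω' b - l'.Y.v k ω b)| ≤ M * ((K k + K' k) * (d * d)) := by
    rw [e1, e1, ← Finset.sum_sub_distrib]
    refine (Finset.abs_sum_le_sum_abs _ _).trans ?_
    have h4 : ∀ j ∈ (Finset.univ : Finset (Fin M)), |μ j * ∑ a, tng l k ω a j * (l.Y.v k ω' a - l.Y.v k ω a) -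
        μ j * ∑ b, tng l' k ω b j * (l'.Y.v k ω' b - l'.Y.v k ω b)| ≤ (K k + K' k) * (d * d) := by
      intro j _
      rw [← mul_sub, abs_mul]
      have h5 := h1 ω ω' a b z r j
      have h6 := h2 ω ω' a b z r' j
      rw [hδ] at h5 h6
      have e2 : ∑ a, tng l k ω a j * (l.Y.v k ω' a - l.Y.v k ω a) -
          ∑ b, tng l' k ω b j * (l'.Y.v k ω' b - l'.Y.v k ω b) =
          (Q.v k ω' j - Q.v k ω j - ∑ b, tng l' k ω b j * (l'.Y.v k ω' b - l'.Y.v k ω b)) -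
          (Q.v k ω' j - Q.v k ω j - ∑ a, tng l k ω a j * (l.Y.v k ω' a - l.Y.v k ω a)) := by ring
      have h7 := abs_sub (Q.v k ω' j - Q.v k ω j - ∑ b, tng l' k ω b j * (l'.Y.v k ω' b - l'.Y.v k ω b))
        (Q.v k ω' j - Q.v k ω j - ∑ a, tng l k ω a j * (l.Y.v k ω' a - l.Y.v k ω a))
      rw [← e2] at h7
      have h8 : |μ j| * |∑ a, tng l k ω a j * (l.Y.v k ω' a - l.Y.v k ω a) -
          ∑ b, tng l' k ω b j * (l'.Y.v k ω' b - l'.Y.v k ω b)| ≤ 1 * ((K k + K' k) * (d * d)) := by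
        refine mul_le_mul (hμ j) ?_ (abs_nonneg _) zero_le_one
        rw [add_mul]
        linarith
      rwa [one_mul] at h8
    refine (Finset.sum_le_sum h4).trans ?_
    rw [Finset.sum_const, Finset.card_univ, Fintype.card_fin, nsmul_eq_mul]
  have h4 : |∑ b, (∑ j, μ j * tng l' k ω b j) * (l'.Y.v k ω' b - l'.Y.v k ω b)| ≤ l'.e * (R * d) := by
    refine (Finset.abs_sum_le_sum_abs _ _).trans ?_
    have h5 : ∀ b ∈ (Finset.univ : Finset (Fin l'.e)), |(∑ j, μ j * tng l' k ω b j) *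
        (l'.Y.v k ω' b - l'.Y.v k ω b)| ≤ R * d := by
      intro b _
      rw [abs_mul]
      exact mul_le_mul (ht b) (hY b) (abs_nonneg _) hR
    refine (Finset.sum_le_sum h5).trans ?_
    rw [Finset.sum_const, Finset.card_univ, Fintype.card_fin, nsmul_eq_mul]
  have e3 : ∑ a, (∑ j, μ j * tng l k ω a j) * (l.Y.v k ω' a - l.Y.v k ω a) =
      (∑ a, (∑ j, μ j * tng l k ω a j) * (l.Y.v k ω' a - l.Y.v k ω a) -
        ∑ b, (∑ j, μ j * tng l' k ω b j) * (l'.Y.v k ω' b - l'.Y.v k ω b)) +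
      ∑ b, (∑ j, μ j * tng l' k ω b j) * (l'.Y.v k ω' b - l'.Y.v k ω b) := by ring
  rw [e3]
  refine (abs_add_le _ _).trans ((add_le_add h3 h4).trans ?_)
  have h5 : (M : ℝ) * ((K k + K' k) * (d * d)) + l'.e * (R * d) ≤
      ((l'.e : ℝ) + M * (K k + K' k)) * (d * (R + d)) := by
    have h6 : 0 ≤ (l'.e : ℝ) * (d * d) := by positivity
    have h7 : 0 ≤ (M : ℝ) * (K k + K' k) * (R * d) := by positivity
    have e4 : ((l'.e : ℝ) + M * (K k + K' k)) * (d * (R + d)) = (M : ℝ) * ((K k + K' k) * (d * d)) + l'.e * (R * d) +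
        ((l'.e : ℝ) * (d * d) + (M : ℝ) * (K k + K' k) * (R * d)) := by ring
    rw [e4]
    linarith
  exact h5

end

end Pool.Agent.Helper80.SUB
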