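import Pool.Agent.Helper81.AD.Der

/-! First order Taylor expansion of functions with bounded second partial derivatives, in all coordinates. -/

set_option autoImplicit false

namespace Pool.Agent.Helper80.SUB

open Finset Filter Topology Pool.Agent.Helper81.AD

noncomputable section

variable {e : ℕ} {c : Fin e → ℝ} {ρ B d : ℝ}

/-- the point with the coordinates of a set moved -/
def mvs (y0 y : Fin e → ℝ) (s : Finset (Fin e)) : Fin e → ℝ := fun i => if i ∈ s then y i else y0 i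

theorem mvs_oc {y0 y : Fin e → ℝ} (h0 : y0 ∈ oc c ρ) (h : y ∈ oc c ρ) (s : Finset (Fin e)) : mvs y0 y s ∈ oc c ρ := by
  intro i
  unfold mvs
  split_ifs
  · exact h i
  · exact h0 i

theorem mvs_empty (y0 y : Fin e → ℝ) : mvs y0 y ∅ = y0 := by
  funext i
  unfold mvs
  rw [if_neg (Finset.notMem_empty i)]

theorem mvs_univ (y0 y : Fin e → ℝ) : mvs y0 y Finset.univ = y := by
  funext i
  unfold mvs
  rw [if_pos (Finset.mem_univ i)]

theorem mvs_insert (y0 y : Fin e → ℝ) (s : Finset (Fin e)) (i : Fin e) :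
    mvs y0 y (insert i s) = Function.update (mvs y0 y s) i (y i) := by
  funext j
  by_cases hj : j = i
  · rw [hj, Function.update_self]
    unfold mvs
    rw [if_pos (Finset.mem_insert_self i s)]
  · rw [Function.update_of_ne hj]
    unfold mvs
    by_cases hs : j ∈ s
    · rw [if_pos hs, if_pos (Finset.mem_insert_of_mem hs)]
    · rw [if_neg hs, if_neg (fun h => (Finset.mem_insert.mp h).elim hj hs)]

theorem mvs_upd (y0 y : Fin e → ℝ) (s : Finset (Fin e)) (i : Fin e) (hi : i ∉ s) :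
    Function.update (mvs y0 y s) i (y0 i) = mvs y0 y s := by
  have : mvs y0 y s i = y0 i := by
    unfold mvs
    rw [if_neg hi]
  rw [← this, Function.update_eq_self]

/-- bounded first derivatives -/
theorem lip_mvs (hB : 0 ≤ B) {f : (Fin e → ℝ) → ℝ} (h : Sm c ρ B 1 f) {y0 y : Fin e → ℝ} (h0 : y0 ∈ oc c ρ)
    (hy : y ∈ oc c ρ) (hd : ∀ i, |y i - y0 i| ≤ d) (s : Finset (Fin e)) : |f (mvs y0 y s) - f y0| ≤ B * s.card * d := by
  classical
  induction s using Finset.induction_on with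
  | empty =>
    rw [mvs_empty, sub_self, abs_zero, Finset.card_empty]
    simp
  | insert i s hi ih =>
    have h1 := taylor_coord 1 0 f h i (mvs y0 y s) (mvs_oc h0 hy s) (y0 i) (y i) (h0 i) (hy i)
    rw [mvs_upd _ _ _ _ hi, ← mvs_insert, Finset.sum_range_one, pow_zero, mul_one, Nat.factorial_zero, Nat.cast_one,
      div_one, pow_one] at h1
    have h2 : ((pd i)^[0] f) (mvs y0 y s) = f (mvs y0 y s) := rfl
    rw [h2] at h1
    have h3 : f (mvs y0 y (insert i s)) - f y0 =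
        (f (mvs y0 y (insert i s)) - f (mvs y0 y s)) + (f (mvs y0 y s) - f y0) := by ring
    rw [h3, Finset.card_insert_of_notMem hi]
    push_cast
    have h4 := abs_add_le (f (mvs y0 y (insert i s)) - f (mvs y0 y s)) (f (mvs y0 y s) - f y0)
    have h5 : B * |y i - y0 i| ≤ B * d := mul_le_mul_of_nonneg_left (hd i) hB
    linarith

/-- FIRST ORDER TAYLOR EXPANSION -/
theorem tay_mvs (hB : 0 ≤ B) {f : (Fin e → ℝ) → ℝ} (h : Sm c ρ B 2 f) {y0 y : Fin e → ℝ} (h0 : y0 ∈ oc c ρ)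
    (hy : y ∈ oc c ρ) (hd : ∀ i, |y i - y0 i| ≤ d) (s : Finset (Fin e)) :
    |f (mvs y0 y s) - f y0 - ∑ i ∈ s, pd i f y0 * (y i - y0 i)| ≤ B * (s.card + 1) ^ 2 * d ^ 2 := by
  classical
  induction s using Finset.induction_on with
  | empty =>
    rw [mvs_empty, sub_self, Finset.sum_empty, sub_zero, abs_zero]
    positivity
  | insert i s hi ih =>
    have hd0 : 0 ≤ d := (abs_nonneg _).trans (hd i)
    have h1 := taylor_coord 2 0 f h i (mvs y0 y s) (mvs_oc h0 hy s) (y0 i) (y i) (h0 i) (hy i)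
    rw [mvs_upd _ _ _ _ hi, ← mvs_insert, Finset.sum_range_succ, Finset.sum_range_one, pow_zero, mul_one,
      Nat.factorial_zero, Nat.factorial_one, Nat.cast_one, div_one, div_one, pow_one] at h1
    have h2 : ((pd i)^[0] f) (mvs y0 y s) = f (mvs y0 y s) := rfl
    have h2' : ((pd i)^[1] f) (mvs y0 y s) = pd i f (mvs y0 y s) := rfl
    rw [h2, h2'] at h1
    have h3 := lip_mvs hB (h.2 i).2 h0 hy hd s
    have h4 : |(pd i f (mvs y0 y s) - pd i f y0) * (y i - y0 i)| ≤ B * s.card * d * d := by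
      rw [abs_mul]
      exact mul_le_mul h3 (hd i) (abs_nonneg _) (by positivity)
    have h5 : B * |y i - y0 i| ^ 2 ≤ B * d ^ 2 :=
      mul_le_mul_of_nonneg_left (pow_le_pow_left₀ (abs_nonneg _) (hd i) 2) hB
    rw [Finset.sum_insert hi, Finset.card_insert_of_notMem hi]
    have e1 : f (mvs y0 y (insert i s)) - f y0 - (pd i f y0 * (y i - y0 i) + ∑ j ∈ s, pd j f y0 * (y j - y0 j)) =
        (f (mvs y0 y (insert i s)) - (f (mvs y0 y s) + pd i f (mvs y0 y s) * (y i - y0 i))) +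
        (pd i f (mvs y0 y s) - pd i f y0) * (y i - y0 i) +
        (f (mvs y0 y s) - f y0 - ∑ j ∈ s, pd j f y0 * (y j - y0 j)) := by ring
    rw [e1]
    refine (abs_add_three _ _ _).trans ?_
    push_cast
    have h6 : B * (s.card : ℝ) * d * d = B * s.card * d ^ 2 := by ring
    have h7 : 0 ≤ B * d ^ 2 := by positivity
    have h8 : 0 ≤ (s.card : ℝ) := Nat.cast_nonneg _
    have h9 : B * ((s.card : ℝ) + 1 + 1) ^ 2 * d ^ 2 = B * ((s.card : ℝ) + 1) ^ 2 * d ^ 2 + B * d ^ 2 * (2 * s.card + 3) := by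
      ring
    rw [h9]
    nlinarith

theorem tay_all (hB : 0 ≤ B) {f : (Fin e → ℝ) → ℝ} (h : Sm c ρ B 2 f) {y0 y : Fin e → ℝ} (h0 : y0 ∈ oc c ρ)
    (hy : y ∈ oc c ρ) (hd : ∀ i, |y i - y0 i| ≤ d) :
    |f y - f y0 - ∑ i, pd i f y0 * (y i - y0 i)| ≤ B * (e + 1) ^ 2 * d ^ 2 := by
  have h1 := tay_mvs hB h h0 hy hd Finset.univ
  rw [mvs_univ, Finset.card_univ, Fintype.card_fin] at h1
  exact h1

end

end Pool.Agent.Helper80.SUB
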