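import Pool.Agent.Helper80.SUB.Tan
import Pool.Agent.Helper4.VZ.Vz

/-! TWO LEAVES THROUGH THE SAME POINT: bounded functionals which are small on the tangents of `l'` are small on the tangents
of `l`, typically. -/

set_option autoImplicit false

namespace Pool.Agent.Helper80.SUB

open Finset Filter Topology Pool.Agent.Helper69.RK Pool.Agent.Helper31.EC Pool.Agent.Helper31.EC.Sp
open Pool.Agent.Helper40.EL Pool.Agent.Helper89.LX Pool.Agent.Helper3.LF Pool.Agent.Helper84.MT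
open Pool.Agent.Helper38.NSL
open Pool.Agent.Helper4.VZ (CNT_gen cz_card)

noncomputable section

variable {S : Sp} {M : ℕ} {E E' : ℕ → ℕ}

/-- functionals which are small on the tangents of `l'` are small on the tangents of `l` -/
def GoodT {Q : S.VV M} (l : Leaf S Q E) (l' : Leaf S Q E') (ε : ℝ) (k : ℕ) (ω : (S.F k).Ω) : Prop :=
  ∀ (μ : Fin M → ℝ) (R : ℝ), 0 ≤ R → (∀ j, |μ j| ≤ 1) → (∀ b, |∑ j, μ j * tng l' k ω b j| ≤ R) →
    ∀ a, |∑ j, μ j * tng l k ω a j| ≤ 2 ^ (ε * (S.F k).n) * (R + S.dl (1 / 2) k)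

/-- numbers of cells in slabs -/
theorem num_slab {e : ℕ} {n K ε : ℝ} (hn : 0 < n) (hK : 0 ≤ K) (hε1 : ε ≤ 1 / 2) {N x : ℝ}
    (he : 0 < e) (hx : x ≤ 4 * K * 2 ^ (1 / 2 * n) * 2 ^ (-(ε * n))) (hN : N ≤ (x + 2 * e + 2) *
      (2 * 2 ^ (1 / 2 * n) + 2) ^ (e - 1)) :
    N ≤ (4 * K + 2 * e + 2) * 4 ^ (e - 1) * 2 ^ ((e / 2 - ε) * n) := by
  set L : ℝ := 2 ^ (1 / 2 * n) with hL
  have hL1 : 1 ≤ L := Real.one_le_rpow (by norm_num) (by positivity)
  have h1 : (1 : ℝ) ≤ L * 2 ^ (-(ε * n)) := by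
    rw [hL, ← Real.rpow_add (by norm_num)]
    exact Real.one_le_rpow (by norm_num) (by nlinarith)
  have h2 : x + 2 * e + 2 ≤ (4 * K + 2 * e + 2) * (L * 2 ^ (-(ε * n))) := by
    have h3 : (2 * (e : ℝ) + 2) * 1 ≤ (2 * (e : ℝ) + 2) * (L * 2 ^ (-(ε * n))) :=
      mul_le_mul_of_nonneg_left h1 (by positivity)
    nlinarith
  have h3 : (2 * L + 2) ^ (e - 1) ≤ (4 * L) ^ (e - 1) := pow_le_pow_left₀ (by positivity) (by linarith) _
  have h4 : (x + 2 * e + 2) * (2 * L + 2) ^ (e - 1) ≤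
      ((4 * K + 2 * e + 2) * (L * 2 ^ (-(ε * n)))) * (4 * L) ^ (e - 1) :=
    mul_le_mul h2 h3 (by positivity) (by positivity)
  refine hN.trans (h4.trans (le_of_eq ?_))
  have h5 : L ^ e = 2 ^ ((e : ℝ) / 2 * n) := by
    rw [hL, ← Real.rpow_natCast, ← Real.rpow_mul (by norm_num)]
    congr 1
    ring
  have h6 : L * L ^ (e - 1) = L ^ e := by
    rw [← pow_succ']
    congr 1
    omega
  have h7 : (2 : ℝ) ^ (((e : ℝ) / 2 - ε) * n) = L ^ e * 2 ^ (-(ε * n)) := by
    rw [h5, ← Real.rpow_add (by norm_num)]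
    congr 1
    ring
  rw [h7, ← h6, mul_pow]
  ring

/-- the lower bound of the entropy -/
theorem low_ent {F : FSp} (X L C A Z : FL F) : h X (L ⊔ Z) ≤ h X ((L ⊔ C) ⊔ A ⊔ Z) + H C + h A ((L ⊔ C) ⊔ Z) := by
  have h1 := h_triangle X A ((L ⊔ C) ⊔ Z)
  have h2 := h_triangle X C (L ⊔ Z)
  have h3 : h C (L ⊔ Z) ≤ H C := by
    rw [← h_bot]
    exact h_anti bot_le
  have e1 : C ⊔ (L ⊔ Z) = (L ⊔ C) ⊔ Z := by rw [← sup_assoc, sup_comm C L]
  have e2 : A ⊔ ((L ⊔ C) ⊔ Z) = (L ⊔ C) ⊔ A ⊔ Z := by rw [← sup_assoc, sup_comm A (L ⊔ C)]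
  rw [e1] at h2
  rw [e2] at h1
  linarith

theorem tan_typ {Q : S.VV M} (l : Leaf S Q E) (l' : Leaf S Q E') (Z : Part S)
    (hf : Tendsto (fun k => h (fc (Setoid.ker (l.Y.cellv 1 k))) (fc (l.La k) ⊔ Z k) / (S.F k).n) UF (𝓝 l.e))
    (hw : PLe (l'.win (1 / 2)) (Pjn (l.win (1 / 2)) Z)) (ε : ℝ) (hε : 0 < ε) (hε1 : ε ≤ 1 / 2) :
    Typ (S := S) (GoodT l l' ε) := by
  classical
  rcases Nat.eq_zero_or_pos l.e with he | he
  · refine Typ_true.mono (Eventually.of_forall fun k ω _ _ μ R _ _ _ a => ?_)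
    exact absurd a.2 (by omega)
  obtain ⟨K, hK, hb⟩ := two_tay l l'
  have hZ₀ : ∀ k, ∃ A : Setoid (S.F k).Ω, fc A = Z k := by
    intro k
    induction Z k using fc_ind with
    | _ A => exact ⟨A, rfl⟩
  choose Zs hZs using hZ₀
  set a₁ : Fin l.e := ⟨0, he⟩ with ha₁
  set G := GoodT l l' ε with hG
  set Zb : ∀ k, Setoid (S.F k).Ω := fun k => ((l.La k ⊓ Setoid.ker (l.Y.cellv (1 / 2) k)) ⊓
    (l'.La k ⊓ Setoid.ker (l'.Y.cellv (1 / 2) k))) ⊓ Zs k with hZb
  set ρ : ∀ k, (S.F k).Ω → ℝ := fun k ω => if G k ω then (l.e : ℝ) / 2 else (l.e : ℝ) / 2 - ε with hρ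
  have hcard := cz_card l.Y a₁ 1 le_rfl
  have hcz : ∀ k ω, Pool.Agent.Helper4.VZ.cz l.Y a₁ 1 k ω = l.Y.cellv 1 k ω := by
    intro k ω
    funext i
    unfold Pool.Agent.Helper4.VZ.cz
    rw [ite_self]
    rfl
  have hKS : S.Sub (fun k => (4 * (K k + 1) + 2 * l.e + 2) * 4 ^ (l.e - 1)) :=
    ((((S.Sub_const (by norm_num)).mul (hK.add (S.Sub_const zero_le_one))).add
      (S.Sub_const (by positivity))).add (S.Sub_const (by norm_num))).mul (S.Sub_const (by positivity))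
  have hmain := CNT_gen (fun k => l.Y.cellv 1 k) Zb (fun _ _ => True) Typ_true ρ ((l.e : ℝ) / 2 + 1) (by
      refine Eventually.of_forall fun k ω _ => ?_
      have h0 : (0 : ℝ) ≤ (l.e : ℝ) / 2 := by positivity
      rw [hρ]
      dsimp only
      split_ifs
      · rw [abs_of_nonneg h0]
        linarith
      · rw [abs_le]
        constructor <;> linarith)
    (fun k ω => if G k ω then 0 else 1) 1 (by
      refine Eventually.of_forall fun k ω _ => ?_
      split_ifs <;> omega) _ hKS (by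
      filter_upwards [hb, hK.1] with k h1 hK0 ω hω _ T hT
      have hn := (S.F k).pos
      have hd0 : 0 < S.dl (1 / 2) k := S.dl_pos _ k
      have hδ0 : 0 < S.dl 1 k := S.dl_pos _ k
      have hδ : S.dl 1 k = S.dl (1 / 2) k * S.dl (1 / 2) k := (dl_half_sq S k).symm
      have hL : S.dl (1 / 2) k / S.dl 1 k = 2 ^ (1 / 2 * (S.F k).n) := by
        rw [hδ, div_mul_cancel_left₀ hd0.ne']
        show ((2 : ℝ) ^ (-(1 / 2 * (S.F k).n)))⁻¹ = _
        rw [Real.rpow_neg (by norm_num), inv_inv]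
      have hcls : ∀ a ∈ T, ∃ ω', (S.F k).μ ω' ≠ 0 ∧ (S.F k).Z ω ω' ∧
          (l.La k ⊓ Setoid.ker (l.Y.cellv (1 / 2) k)) ω ω' ∧
          (l'.La k ⊓ Setoid.ker (l'.Y.cellv (1 / 2) k)) ω ω' ∧ l.Y.cellv 1 k ω' = a := by
        intro a ha
        obtain ⟨ω', g1, _, g2, g3, _, g4⟩ := hT a ha
        exact ⟨ω', g1, (S.F k).Z.symm g3, (l.La k ⊓ Setoid.ker (l.Y.cellv (1 / 2) k)).symm g2.1.1,
          (l'.La k ⊓ Setoid.ker (l'.Y.cellv (1 / 2) k)).symm g2.1.2, g4⟩
      by_cases hg : G k ω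
      · have hs := slab_card (δ := S.dl 1 k) (r := S.dl (1 / 2) k) (s := S.dl (1 / 2) k) hδ0 hd0.le hd0.le
          (Pi.single a₁ 1) a₁ (fun a => by
            rw [Pi.single_eq_same, abs_one]
            by_cases h : a = a₁
            · rw [h, Pi.single_eq_same, abs_one]
            · rw [Pi.single_eq_of_ne h, abs_zero]
              exact zero_le_one) (by rw [Pi.single_eq_same, abs_one]; exact one_pos) (l.Y.v k ω) T (by
            intro c hc
            obtain ⟨ω', g1, g2, g3, g4, g5⟩ := hcls c hc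
            have hY : ∀ i, |l.Y.v k ω' i - l.Y.v k ω i| ≤ S.dl (1 / 2) k := fun i => by
              rw [abs_sub_comm]
              exact abs_sub_le_of_floor_eq hd0 (congrFun g3.2 i)
            refine ⟨l.Y.v k ω', fun a => congrFun g5 a, hY, ?_⟩
            have e1 : ∑ a, (Pi.single a₁ 1 : Fin l.e → ℝ) a * (l.Y.v k ω' a - l.Y.v k ω a) =
                l.Y.v k ω' a₁ - l.Y.v k ω a₁ := by
              rw [Finset.sum_eq_single a₁]
              · rw [Pi.single_eq_same, one_mul]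
              · intro b _ hb
                rw [Pi.single_eq_of_ne hb, zero_mul]
              · intro h
                exact absurd (Finset.mem_univ _) h
            rw [e1]
            exact hY a₁)
        rw [Pi.single_eq_same, abs_one, div_one] at hs
        have e2 : 4 * S.dl (1 / 2) k / S.dl 1 k = 4 * 2 ^ (1 / 2 * (S.F k).n) := by rw [← hL]; ring
        have e3 : 2 * S.dl (1 / 2) k / S.dl 1 k = 2 * 2 ^ (1 / 2 * (S.F k).n) := by rw [← hL]; ring
        rw [e2, e3] at hs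
        have h3 := num_slab (K := 1) (ε := 0) hn zero_le_one (by norm_num) he (x := 4 * 2 ^ (1 / 2 * (S.F k).n))
          (by rw [zero_mul, neg_zero, Real.rpow_zero]; linarith) hs
        have e4 : ρ k ω = (l.e : ℝ) / 2 := by
          rw [hρ]
          exact if_pos hg
        rw [e4]
        rw [sub_zero] at h3
        refine h3.trans ?_
        apply mul_le_mul_of_nonneg_right _ (by positivity)
        apply mul_le_mul_of_nonneg_right _ (by positivity)
        linarith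
      · have hg' := hg
        rw [hG] at hg'
        unfold GoodT at hg'
        push Not at hg'
        obtain ⟨μ, R, hR, hμ, ht, a, ha⟩ := hg'
        obtain ⟨a₀, _, hmax⟩ := Finset.exists_max_image Finset.univ
          (fun a => |∑ j, μ j * tng l k ω a j|) ⟨a, Finset.mem_univ a⟩
        set v : Fin l.e → ℝ := fun a => ∑ j, μ j * tng l k ω a j with hv
        have hva : 2 ^ (ε * (S.F k).n) * (R + S.dl (1 / 2) k) < |v a₀| :=
          lt_of_lt_of_le ha (hmax a (Finset.mem_univ a))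
        have hpos : 0 < R + S.dl (1 / 2) k := by linarith
        have hv0 : 0 < |v a₀| := lt_trans (by positivity) hva
        have hs := slab_card (δ := S.dl 1 k) (r := S.dl (1 / 2) k)
          (s := K k * (S.dl (1 / 2) k * (R + S.dl (1 / 2) k))) hδ0 hd0.le (by positivity) v a₀
          (fun a => hmax a (Finset.mem_univ a)) hv0 (l.Y.v k ω) T (by
            intro c hc
            obtain ⟨ω', g1, g2, g3, g4, g5⟩ := hcls c hc
            have hY : ∀ i, |l.Y.v k ω' i - l.Y.v k ω i| ≤ S.dl (1 / 2) k := fun i => by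
              rw [abs_sub_comm]
              exact abs_sub_le_of_floor_eq hd0 (congrFun g3.2 i)
            exact ⟨l.Y.v k ω', fun a => congrFun g5 a, hY, h1 ω ω' hω g1 g2 g3 g4 μ R hR hμ ht⟩)
        have e3 : 2 * S.dl (1 / 2) k / S.dl 1 k = 2 * 2 ^ (1 / 2 * (S.F k).n) := by rw [← hL]; ring
        rw [e3] at hs
        have h3 := num_slab (K := K k) (ε := ε) hn hK0 hε1 he
          (x := 4 * (K k * (S.dl (1 / 2) k * (R + S.dl (1 / 2) k))) / |v a₀| / S.dl 1 k) (by
            have e5 : 4 * (K k * (S.dl (1 / 2) k * (R + S.dl (1 / 2) k))) / |v a₀| / S.dl 1 k =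
                4 * K k * (S.dl (1 / 2) k / S.dl 1 k) * ((R + S.dl (1 / 2) k) / |v a₀|) := by
              field_simp
            rw [e5, hL]
            apply mul_le_mul_of_nonneg_left _ (by positivity)
            rw [div_le_iff₀ hv0, Real.rpow_neg (by norm_num), inv_mul_eq_div, le_div_iff₀ (by positivity), mul_comm]
            exact hva.le) hs
        have e4 : ρ k ω = (l.e : ℝ) / 2 - ε := by
          rw [hρ]
          exact if_neg hg
        rw [e4]
        refine h3.trans ?_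
        apply mul_le_mul_of_nonneg_right _ (by positivity)
        apply mul_le_mul_of_nonneg_right _ (by positivity)
        linarith) (2 * l.e) (by
      filter_upwards [hcard] with k hk T hT
      apply hk T
      intro a ha
      obtain ⟨ω', g1, g2⟩ := hT a ha
      exact ⟨ω', g1, by rw [hcz]; exact g2⟩)
  -- the mean of the exponents
  set q : ℕ → ℝ := fun k => mass (res (S.F k).μ (fun ω => ¬ G k ω)) with hq
  have hq0 : ∀ k, 0 ≤ q k := fun k => mass_res_nonneg k _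
  have hq1 : ∀ k, q k ≤ 1 := fun k => (S.F k).pb_le_one (fun ω => ¬ G k ω)
  have hqU : UB q := UB_of_nonneg_le (C := 1) (Eventually.of_forall hq0) (Eventually.of_forall hq1)
  have hmean : (fun k => ∑ ω, (S.F k).μ ω * ρ k ω) = fun k => (l.e : ℝ) / 2 + (-ε) * q k := by
    funext k
    have h1 : ∀ ω, (S.F k).μ ω * ρ k ω = (S.F k).μ ω * ((l.e : ℝ) / 2) +
        (-ε) * res (S.F k).μ (fun ω => ¬ G k ω) ω := by
      intro ω
      rw [hρ]
      dsimp only
      by_cases hg : G k ω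
      · rw [if_pos hg, res_neg _ (fun ω => ¬ G k ω) ω (not_not.2 hg)]
        ring
      · rw [if_neg hg, res_pos _ (fun ω => ¬ G k ω) ω hg]
        ring
    have hms : ∑ ω, (S.F k).μ ω = 1 := (S.F k).ms
    rw [Finset.sum_congr rfl fun ω _ => h1 ω, Finset.sum_add_distrib, ← Finset.sum_mul, ← Finset.mul_sum,
      hms, one_mul]
    rfl
  have hlim : Tendsto (fun k => (l.e : ℝ) / 2 + (-ε) * q k) UF (𝓝 ((l.e : ℝ) / 2 + (-ε) * ul q)) :=
    tendsto_const_nhds.add ((ul_tendsto hqU).const_mul (-ε))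
  have h1 : ul (S.rt (fun k => Setoid.ker (l.Y.cellv 1 k)) Zb) ≤ (l.e : ℝ) / 2 + (-ε) * ul q := by
    have := hmain.2
    rw [hmean, ul_eq hlim] at this
    exact this
  -- the lower bound
  have h2 := ul_tendsto hmain.1
  have hC : Tendsto (fun k => H (fc (Setoid.ker (l.Y.cellv (1 / 2) k)) : FL (S.F k)) / (S.F k).n) UF
      (𝓝 (H (l.Y.dg (1 / 2)))) := by
    have e1 : S.rt (l.Y.bdd (1 / 2)).toInf.1 S.tr =
        fun k => H (fc (Setoid.ker (l.Y.cellv (1 / 2) k)) : FL (S.F k)) / (S.F k).n := by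
      funext k
      rw [H_fc]
      show (S.F k).e (Setoid.ker (l.Y.cellv (1 / 2) k)) (⊤ ⊓ (S.F k).Z) / (S.F k).n = _
      rw [top_inf_eq]
    have h3 := ul_tendsto (UB_rt (S := S) (l.Y.bdd (1 / 2)).toInf S.tr)
    have e0 : l.Y.dg (1 / 2) = cl (l.Y.bdd (1 / 2)).toInf := io_eq (l.Y.bdd (1 / 2))
    rw [e0, H_cl, ← e1]
    exact h3
  have hC1 : H (l.Y.dg (1 / 2)) ≤ l.e * (1 / 2) := l.Y.H_dg_le (by norm_num)
  have h3 := (hf.sub hC).sub hw
  have h4 : (l.e : ℝ) - H (l.Y.dg (1 / 2)) - 0 ≤ ul (S.rt (fun k => Setoid.ker (l.Y.cellv 1 k)) Zb) := by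
    refine le_of_tendsto_of_tendsto h3 h2 (Eventually.of_forall fun k => ?_)
    have hn := (S.F k).pos
    have e1 : S.rt (fun k => Setoid.ker (l.Y.cellv 1 k)) Zb k =
        h (fc (Setoid.ker (l.Y.cellv 1 k))) (l.win (1 / 2) k ⊔ l'.win (1 / 2) k ⊔ Z k) / (S.F k).n := by
      show (S.F k).e (Setoid.ker (l.Y.cellv 1 k)) (Zb k ⊓ (S.F k).Z) / (S.F k).n = _
      rw [← h_fc, hZb]
      dsimp only
      rw [fc_inf, fc_inf, hZs]
      rfl
    have e2 : l.win (1 / 2) k = fc (l.La k) ⊔ fc (Setoid.ker (l.Y.cellv (1 / 2) k)) := fc_inf _ _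
    have h5 := low_ent (fc (Setoid.ker (l.Y.cellv 1 k))) (fc (l.La k)) (fc (Setoid.ker (l.Y.cellv (1 / 2) k)))
      (l'.win (1 / 2) k) (Z k)
    rw [← e2] at h5
    rw [e1]
    show _ / _ - _ / _ - h (l'.win (1 / 2) k) (l.win (1 / 2) k ⊔ Z k) / _ ≤ _
    rw [← sub_div, ← sub_div]
    apply div_le_div_of_nonneg_right _ hn.le
    linarith
  have h5 : ul q ≤ 0 := by
    have h6 : ε * ul q ≤ 0 := by linarith
    by_contra h7
    push Not at h7
    have := mul_pos hε h7
    linarith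
  have h6 : 0 ≤ ul q := ge_of_tendsto' (ul_tendsto hqU) hq0
  have h7 := ul_tendsto hqU
  rw [le_antisymm h5 h6] at h7
  exact h7

end

end Pool.Agent.Helper80.SUB
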